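import Pool.Agent.Lib.MP_9d0a1e_co.Bip.BStep3
import Pool.Agent.Lib.MP_9d0a1e_co.AStep

/-!
# Bipartite graphs, three cops: a new shortest path; the three cop theorem
-/

namespace Pool.Agent.Lib.MP9d0a1e

universe u

variable {V : Type u} {G : SimpleGraph V}

/-- After a shortest path between two boundary vertices has been taken. -/
theorem x_step3 (col : V → Bool) {R : Set V} (hK33 : NoK33 G) {w : ℤ → V} {N : ℤ} (hcyc : Cyc G w N)
    (hout : ∀ x, w x ∉ R) (hbd : ∀ r ∈ R, ∀ b, b ∉ R → G.Adj r b → ∃ x, w x = b)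
    (hconn : Conn G R) {s t : ℤ} (hst : s < t) (hts : t < s + N) (P : GPath G R)
    (hlo : P.lo = 0) (hhi : 2 ≤ P.hi) (hq0 : P.q 0 = w s) (hqh : P.q P.hi = w t)
    (hqR : ∀ x, 0 < x → x < P.hi → P.q x ∈ R) {h1 h2 : V → V → Prop}
    (hh1 : IsGuard G R h1) (hh2 : IsGuard G R h2)
    (hc1 : ∀ r ∈ R, ∀ x, s < x → x < t → G.Adj r (w x) → Covers G h1 r (w x))
    (hc2 : ∀ r ∈ R, ∀ x, t < x → x < s + N → G.Adj r (w x) → Covers G h2 r (w x))
    {r0 : V} (hr0 : r0 ∈ R \ arc P.q 0 P.hi)
    (ih : ∀ K : Set V, K ⊆ R → K ≠ R → ∀ (w : ℤ → V) (N : ℤ) (P : GPath G K) (a b : ℤ)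
      (g1 : V → V → Prop), BState G K w N P a b g1 → Sw G K ![g1, wp col P.low, free]) :
    Sw G (comp G (R \ arc P.q 0 P.hi) r0) ![h1, wp col P.low, free] ∨
      Sw G (comp G (R \ arc P.q 0 P.hi) r0) ![h2, wp col P.low, free] := by
  classical
  set K := comp G (R \ arc P.q 0 P.hi) r0 with hKdef
  have hK : K ⊆ R \ arc P.q 0 P.hi := comp_subset hr0
  have hKR : K ⊆ R := fun x hx => (hK hx).1
  have hKne : K ≠ R := by
    intro h
    have h1 : P.q 1 ∈ arc P.q 0 P.hi := ⟨1, by omega, by omega, rfl⟩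
    have h2 : P.q 1 ∈ K := by rw [h]; exact hqR 1 (by omega) (by omega)
    exact (hK h2).2 h1
  have hbK : ∀ r ∈ K, ∀ v, v ∉ K → G.Adj r v → v ∈ arc P.q 0 P.hi ∨ v ∉ R := by
    intro r hr v hv ha
    by_cases h1 : v ∈ R
    · left
      by_contra h2
      exact hv (mem_comp_of_adj hr ha ⟨h1, h2⟩)
    · exact Or.inr h1
  have hbd' : ∀ r ∈ R, ∀ v, v ∉ R → G.Adj r v → ∃ x, s ≤ x ∧ x < s + N ∧ w x = v := by
    intro r hr v hv ha
    obtain ⟨x, hx⟩ := hbd r hr v hv ha
    obtain ⟨y, h1, h2, h3⟩ := hcyc.exists_mem s x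
    exact ⟨y, h1, h2, h3.trans hx⟩
  have hY : ∀ y ∈ arc P.q 0 P.hi, ∃ x, P.lo ≤ x ∧ x ≤ P.hi ∧ P.q x = y := by
    rintro _ ⟨x, h1, h2, rfl⟩
    exact ⟨x, by omega, by omega, rfl⟩
  have hYR : arc P.q 0 P.hi ⊆ R := by
    rintro _ ⟨x, h1, h2, rfl⟩
    exact hqR x h1 h2
  have hpath : ∀ x, P.lo ≤ x → x ≤ P.hi → P.q x ∉ R ∨ P.q x ∈ arc P.q 0 P.hi := by
    intro x h1 h2
    by_cases h3 : 0 < x ∧ x < P.hi
    · exact Or.inr ⟨x, h3.1, h3.2, rfl⟩
    · left
      have : x = 0 ∨ x = P.hi := by omega
      rcases this with rfl | rfl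
      · rw [hq0]; exact hout s
      · rw [hqh]; exact hout t
  have hwP : ∀ x y, 0 < y → y < P.hi → w x ≠ P.q y := fun x y h1 h2 h =>
    hout x (h ▸ hqR y h1 h2)
  have hfi : ∀ x y, 0 ≤ x → x < y → y ≤ P.hi → P.q x ≠ P.q y := by
    intro x y h1 h2 h3 h4
    by_cases h5 : 0 < x
    · have := P.inj_R (x := x) (y := y) (by omega) (by omega) (by omega) h3
        (hqR x h5 (by omega)) h4
      omega
    · have h6 : x = 0 := by omega
      subst h6
      by_cases h7 : y < P.hi
      · have := P.inj_R (x := y) (y := 0) (by omega) (by omega) (by omega) (by omega)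
          (hqR y h2 h7) h4.symm
        omega
      · have h8 : y = P.hi := by omega
        subst h8
        rw [hq0, hqh] at h4
        exact hcyc.ne hst hts h4
  have hYconn : Conn G (arc P.q 0 P.hi) :=
    conn_arc _ _ _ fun x h1 h2 => P.adj x (by omega) (by omega)
  have hYs : ∃ y ∈ arc P.q 0 P.hi, G.Adj y (w s) := by
    refine ⟨P.q 1, ⟨1, by omega, by omega, rfl⟩, ?_⟩
    have := P.adj 0 (by omega) (by omega)
    rw [zero_add, hq0] at this
    exact this.symm
  have hYt : ∃ y ∈ arc P.q 0 P.hi, G.Adj y (w t) := by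
    refine ⟨P.q (P.hi - 1), ⟨P.hi - 1, by omega, by omega, rfl⟩, ?_⟩
    have := P.adj (P.hi - 1) (by omega) (by omega)
    rw [sub_add_cancel, hqh] at this
    exact this
  by_cases hcase : ∃ x, s < x ∧ x < t ∧ ∃ r ∈ K, G.Adj r (w x)
  · left
    have hno : ∀ x, t < x → x < s + N → ∀ r ∈ K, ¬ G.Adj r (w x) := by
      intro x h1 h2 r hr ha
      exact arc_lemma hK33 hcyc hst hts hconn hout hYR hYconn hYs hYt hr0 hcase
        ⟨x, h1, h2, r, hr, ha⟩
    have B := bstate_mk P (a := 0) (b := P.hi) (m := t - s) (g := fun y => w (t - y))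
      (Y := arc P.q 0 P.hi) (r0 := r0) (h := h1) hr0 hlo.le (by omega) le_rfl (by omega) hpath
      (by simpa using hqh) (by simpa using hq0)
      (by
        intro y h1 h2
        have := hcyc.adj (t - y - 1)
        rw [sub_add_cancel] at this
        change G.Adj (w (t - y)) (w (t - (y + 1)))
        rw [show t - (y + 1) = t - y - 1 by ring]
        exact this.symm)
      hfi
      (fun x y h1 h2 h3 => (hcyc.ne (by omega) (by omega)).symm)
      (by
        intro x y h1 h2 h3 h4
        by_cases hx : 0 < x ∧ x < P.hi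
        · exact (hwP (t - y) x hx.1 hx.2).symm
        · have : x = 0 ∨ x = P.hi := by omega
          rcases this with rfl | rfl
          · rw [hq0]; exact hcyc.ne (by omega) (by omega)
          · rw [hqh]; exact (hcyc.ne (by omega) (by omega)).symm)
      (fun y h1 h2 h3 => hout _ (hKR h3))
      (by
        intro r hr v hv ha
        rcases hbK r hr v hv ha with ⟨x, h1, h2, rfl⟩ | h1
        · exact Or.inl ⟨x, h1.le, h2.le, rfl⟩
        · obtain ⟨x, h2, h3, rfl⟩ := hbd' r (hKR hr) v h1 ha
          have h4 : x ≤ t := by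
            by_contra h5
            exact hno x (by omega) h3 r hr ha
          rcases eq_or_lt_of_le h2 with rfl | h2
          · exact Or.inl ⟨0, le_rfl, by omega, hq0⟩
          · rcases eq_or_lt_of_le h4 with rfl | h4
            · exact Or.inl ⟨P.hi, by omega, le_rfl, hqh⟩
            · exact Or.inr ⟨t - x, by omega, by omega, by
                change w (t - (t - x)) = w x; congr 1; ring⟩)
      (fun r hr x h1 h2 _ => ⟨by omega, by omega⟩)
      (hh1.subset hKR)
      (fun r hr y h1 h2 ha => hc1 r (hKR hr) (t - y) (by omega) (by omega) ha)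
    refine sw_mono3 (ih K hKR hKne _ _ _ _ _ _ B) (fun x _ c h => h) ?_ (fun _ _ _ _ => trivial)
    intro x hx c h
    exact ⟨(P.low_restrict hr0 hY hx c).2 h.1, h.2⟩
  · right
    push Not at hcase
    have B := bstate_mk P (a := 0) (b := P.hi) (m := s + N - t) (g := fun y => w (t + y))
      (Y := arc P.q 0 P.hi) (r0 := r0) (h := h2) hr0 hlo.le (by omega) le_rfl (by omega) hpath
      (by simpa using hqh)
      (by
        change P.q 0 = w (t + (s + N - t))
        rw [show t + (s + N - t) = s + N by ring, hcyc.per, hq0])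
      (by
        intro y h1 h2
        have := hcyc.adj (t + y)
        rwa [add_assoc] at this)
      hfi
      (fun x y h1 h2 h3 => hcyc.ne (by omega) (by omega))
      (by
        intro x y h1 h2 h3 h4
        by_cases hx : 0 < x ∧ x < P.hi
        · exact (hwP (t + y) x hx.1 hx.2).symm
        · have : x = 0 ∨ x = P.hi := by omega
          rcases this with rfl | rfl
          · rw [hq0]; exact hcyc.ne (by omega) (by omega)
          · rw [hqh]; exact hcyc.ne (by omega) (by omega))
      (fun y h1 h2 h3 => hout _ (hKR h3))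
      (by
        intro r hr v hv ha
        rcases hbK r hr v hv ha with ⟨x, h1, h2, rfl⟩ | h1
        · exact Or.inl ⟨x, h1.le, h2.le, rfl⟩
        · obtain ⟨x, h2, h3, rfl⟩ := hbd' r (hKR hr) v h1 ha
          rcases eq_or_lt_of_le h2 with rfl | h2
          · exact Or.inl ⟨0, le_rfl, by omega, hq0⟩
          · have h4 : t ≤ x := by
              by_contra h5
              exact hcase x h2 (by omega) r hr ha
            rcases eq_or_lt_of_le h4 with rfl | h4
            · exact Or.inl ⟨P.hi, by omega, le_rfl, hqh⟩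
            · exact Or.inr ⟨x - t, by omega, by omega, by
                change w (t + (x - t)) = w x; congr 1; ring⟩)
      (fun r hr x h1 h2 _ => ⟨by omega, by omega⟩)
      (hh2.subset hKR)
      (fun r hr y h1 h2 ha => hc2 r (hKR hr) (t + y) (by omega) (by omega) ha)
    refine sw_mono3 (ih K hKR hKne _ _ _ _ _ _ B) (fun x _ c h => h) ?_ (fun _ _ _ _ => trivial)
    intro x hx c h
    exact ⟨(P.low_restrict hr0 hY hx c).2 h.1, h.2⟩

/-- The step from an `AState`. -/
theorem a_step3 {col : V → Bool} (hcol : Col G col) (hnb : ∀ v : V, ∃ u, G.Adj v u) (hG : G.Connected) (hK33 : NoK33 G) {R : Set V}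
    {w : ℤ → V} {N : ℤ} {g1 g2 : V → V → Prop} {a e : ℤ} (S : AState G R w N g1 g2 a e)
    (ihA : ∀ K : Set V, K ⊆ R → K ≠ R → ∀ (w : ℤ → V) (N : ℤ) (g1 g2 : V → V → Prop) (a e : ℤ),
      AState G K w N g1 g2 a e → Sw G K ![g1, g2, wp col free])
    (ihB : ∀ K : Set V, K ⊆ R → K ≠ R → ∀ (w : ℤ → V) (N : ℤ) (P : GPath G K) (a b : ℤ)
      (g1 : V → V → Prop), BState G K w N P a b g1 → Sw G K ![g1, wp col P.low, free]) :
    Sw G R ![g1, g2, wp col free] := by
  classical
  rcases R.eq_empty_or_nonempty with hRe | ⟨ρ, hρ⟩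
  · intro c r hr
    rw [hRe] at hr
    exact absurd hr (Set.notMem_empty _)
  have hcov : ∀ r ∈ R, ∀ v, v ∉ R → G.Adj r v → Covers G g1 r v ∨ Covers G g2 r v := by
    intro r hr v hv ha
    obtain ⟨x, hx⟩ := S.bd r hr v hv ha
    obtain ⟨y, h1, h2, h3⟩ := S.cyc.exists_mem a x
    rw [hx] at h3
    subst h3
    by_cases h4 : y ≤ e
    · exact Or.inl (S.cov1 r hr y h1 h4 ha)
    · exact Or.inr (S.cov2 r hr y (by omega) h2 ha)
  -- there is a boundary vertex
  have hne : ∃ x, a ≤ x ∧ x < a + N ∧ ∃ r ∈ R, G.Adj r (w x) := by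
    obtain ⟨p⟩ := hG.preconnected ρ (w a)
    obtain ⟨r, hr, b, hb, hrb⟩ := exists_exit p hρ (S.out a)
    obtain ⟨x, hx⟩ := S.bd r hr b hb hrb
    obtain ⟨y, h1, h2, h3⟩ := S.cyc.exists_mem a x
    exact ⟨y, h1, h2, r, hr, by rw [h3, hx]; exact hrb⟩
  rcases split (fun x => ∃ r ∈ R, G.Adj r (w x)) N a e (fun x => by simp only [S.cyc.per]) S.lt hne
    with ⟨s, t, hst, hts, hps, hpt, has, hta, hsplit⟩ | ⟨s, hs1, hs2, ⟨r1, hr1, hr1s⟩, huniq⟩
  · -- two boundary vertices
    obtain ⟨P, hlo, hhi, hq0, hqh, hqR⟩ := exists_X S.conn (S.out s) (S.out t)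
      (S.cyc.ne hst hts) hps hpt
    -- the two arcs
    obtain ⟨h1, h2, hh1, hh2, hc1, hc2⟩ : ∃ h1 h2 : V → V → Prop, (h1 = g1 ∨ h1 = g2) ∧
        (h2 = g1 ∨ h2 = g2) ∧
        (∀ r ∈ R, ∀ x, s < x → x < t → G.Adj r (w x) → Covers G h1 r (w x)) ∧
        (∀ r ∈ R, ∀ x, t < x → x < s + N → G.Adj r (w x) → Covers G h2 r (w x)) := by
      rcases hsplit with ⟨k1, k2⟩ | ⟨k1, k2⟩
      · refine ⟨g1, g2, Or.inl rfl, Or.inr rfl, ?_, ?_⟩
        · intro r hr x h1 h2 ha
          exact S.cov1 r hr x (by omega) (k1 x h1 h2 ⟨r, hr, ha⟩) ha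
        · intro r hr x h1 h2 ha
          have := k2 x h1 h2 ⟨r, hr, ha⟩
          exact S.cov2 r hr x this.1 this.2 ha
      · refine ⟨g2, g2, Or.inr rfl, Or.inr rfl, ?_, ?_⟩
        · intro r hr x h1 h2 ha
          exact S.cov2 r hr x (k1 x h1 h2 ⟨r, hr, ha⟩) (by omega) ha
        · intro r hr x h1 h2 ha
          rcases k2 x h1 h2 ⟨r, hr, ha⟩ with h3 | h3
          · exact S.cov2 r hr x h3.1 h3.2 ha
          · have h4 : w (x - N) = w x := by
              have := S.cyc.per (x - N)
              rw [sub_add_cancel] at this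
              exact this.symm
            rw [← h4] at ha ⊢
            exact S.cov2 r hr (x - N) h3.2 (by omega) ha
    -- cop 2 takes the new path
    refine sw_att hnb (2 : Fin 3) (J := wp col free) (h := wp col P.low) ?_ ?_ ?_ ?_
    · intro k hk
      fin_cases k
      · exact S.gd1
      · exact S.gd2
      · exact absurd rfl hk
    · rw [update3_2]
      refine cov3 fun r hr v hv ha => ?_
      rcases hcov r hr v hv ha with h | h
      · exact Or.inl h
      · exact Or.inr (Or.inl h)
    · intro r hr c hc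
      exact (P.att_free_low hG r hr c).wp hcol hc.2
    rw [update3_2]
    refine sw_pass (Y := arc P.q 0 P.hi) hnb ?_ ?_ ?_ ?_
    · intro k
      fin_cases k
      · exact S.gd1
      · exact S.gd2
      · exact isGuard_wp hcol P.isGuard_low
    · refine cov3 fun r hr v hv ha => ?_
      rcases hcov r hr v hv ha with h | h
      · exact Or.inl h
      · exact Or.inr (Or.inl h)
    · rintro r hr _ v ⟨x, h1, h2, rfl⟩ ha
      exact ⟨2, P.covers_full hcol hr (by omega) (by omega) ha⟩
    intro r0 hr0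
    have fin : ∀ h : V → V → Prop, (h = g1 ∨ h = g2) →
        Sw G (comp G (R \ arc P.q 0 P.hi) r0) ![h, wp col P.low, free] →
        Sw G (comp G (R \ arc P.q 0 P.hi) r0) ![g1, g2, wp col P.low] := by
      rintro h (rfl | rfl) hsw
      · refine sw_perm3 ![0, 2, 1] ![0, 2, 1] (by decide) (by decide) ?_
        exact sw_mono3 hsw (fun x _ c h => h) (fun x _ c h => h) (fun _ _ _ _ => trivial)
      · refine sw_perm3 ![1, 2, 0] ![2, 0, 1] (by decide) (by decide) ?_
        exact sw_mono3 hsw (fun x _ c h => h) (fun x _ c h => h) (fun _ _ _ _ => trivial)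
    have hg : ∀ h : V → V → Prop, (h = g1 ∨ h = g2) → IsGuard G R h := by
      rintro h (rfl | rfl)
      · exact S.gd1
      · exact S.gd2
    rcases x_step3 col hK33 S.cyc S.out S.bd S.conn hst hts P hlo hhi hq0 hqh hqR (hg h1 hh1)
      (hg h2 hh2) hc1 hc2 hr0 ihB with h | h
    · exact fin h1 hh1 h
    · exact fin h2 hh2 h
  · -- one boundary vertex
    have hadj : G.Adj (w s) r1 := hr1s.symm
    -- the whole boundary is covered by one of the first two cops
    have hone : ∀ r ∈ R, ∀ v, v ∉ R → G.Adj r v → v = w s := by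
      intro r hr v hv ha
      obtain ⟨x, hx⟩ := S.bd r hr v hv ha
      obtain ⟨y, h2, h3, h4⟩ := S.cyc.exists_mem a x
      have h5 : y = s := huniq y h2 h3 ⟨r, hr, by rw [h4, hx]; exact ha⟩
      rw [← hx, ← h4, h5]
    have main : ∀ h k : V → V → Prop, IsGuard G R h → IsGuard G R k →
        (∀ r ∈ R, ∀ v, v ∉ R → G.Adj r v → Covers G h r v) → Sw G R ![k, h, wp col free] := by
      intro h k hgh hgk hch
      refine sw_att hnb (0 : Fin 3) (J := free) (h := edgeGuard (w s) r1) ?_ ?_ ?_ ?_
      · intro l hl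
        fin_cases l
        · exact absurd rfl hl
        · exact hgh
        · exact isGuard_wp hcol (isGuard_free hnb R)
      · rw [update3_0]
        exact cov3 fun r hr v hv ha => Or.inr (Or.inl (hch r hr v hv ha))
      · intro r hr c _
        obtain ⟨p⟩ := hG.preconnected c (w s)
        exact att_walk (h := edgeGuard (w s) r1)
          (fun r _ => Att.done (show edgeGuard (w s) r1 r (w s) from Or.inl rfl)) p r hr
      rw [update3_0]
      refine sw_pass (Y := {r1}) hnb ?_ ?_ ?_ ?_
      · intro l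
        fin_cases l
        · exact isGuard_edge hadj R
        · exact hgh
        · exact isGuard_wp hcol (isGuard_free hnb R)
      · exact cov3 fun r hr v hv ha => Or.inr (Or.inl (hch r hr v hv ha))
      · rintro r hr _ v hv _
        exact ⟨0, covers_edge hadj r v (Or.inr hv)⟩
      intro r0 hr0
      set K := comp G (R \ {r1}) r0 with hKdef
      have hK : K ⊆ R \ {r1} := comp_subset hr0
      have hKR : K ⊆ R := fun x hx => (hK hx).1
      have hKne : K ≠ R := by
        intro h
        have h2 : r1 ∈ K := by rw [h]; exact hr1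
        exact (hK h2).2 rfl
      have A := astate_edge hadj (K := K) (fun h => S.out s (hKR h)) (fun h => (hK h).2 rfl)
        (conn_comp _ _) (by
          intro r hr b hb ha
          by_cases h1 : b ∈ R
          · right
            by_contra h2
            exact hb (mem_comp_of_adj hr ha ⟨h1, h2⟩)
          · exact Or.inl (hone r (hKR hr) b h1 ha)) hnb
      exact sw_mono3 (ihA K hKR hKne _ _ _ _ _ _ A) (fun x _ c h => h)
        (fun _ _ _ _ => trivial) (fun x _ c h => h)
    by_cases hse : s ≤ e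
    · refine sw_perm3 ![1, 0, 2] ![1, 0, 2] (by decide) (by decide) ?_
      refine main g1 g2 S.gd1 S.gd2 fun r hr v hv ha => ?_
      have hvs := hone r hr v hv ha
      subst hvs
      exact S.cov1 r hr s hs1 hse ha
    · refine main g2 g1 S.gd2 S.gd1 fun r hr v hv ha => ?_
      have hvs := hone r hr v hv ha
      subst hvs
      exact S.cov2 r hr s (by omega) hs2 ha

/-- All states are winning. -/
theorem all_states3 [Finite V] {col : V → Bool} (hcol : Col G col) (hnb : ∀ v : V, ∃ u, G.Adj v u)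
    (hG : G.Connected) (hK33 : NoK33 G) (n : ℕ) : ∀ R : Set V, R.ncard = n →
    (∀ (w : ℤ → V) (N : ℤ) (g1 g2 : V → V → Prop) (a e : ℤ),
      AState G R w N g1 g2 a e → Sw G R ![g1, g2, wp col free]) ∧
    (∀ (w : ℤ → V) (N : ℤ) (P : GPath G R) (a b : ℤ) (g1 : V → V → Prop),
      BState G R w N P a b g1 → Sw G R ![g1, wp col P.low, free]) := by
  induction n using Nat.strong_induction_on with
  | _ n ih =>
    intro R hR
    have hlt : ∀ K : Set V, K ⊆ R → K ≠ R → K.ncard < n := by
      intro K h1 h2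
      rw [← hR]
      exact Set.ncard_lt_ncard (lt_of_le_of_ne h1 h2) (Set.toFinite R)
    have hA : ∀ (w : ℤ → V) (N : ℤ) (g1 g2 : V → V → Prop) (a e : ℤ),
        AState G R w N g1 g2 a e → Sw G R ![g1, g2, wp col free] := by
      intro w N g1 g2 a e S
      exact a_step3 hcol hnb hG hK33 S (fun K h1 h2 => (ih _ (hlt K h1 h2) K rfl).1)
        (fun K h1 h2 => (ih _ (hlt K h1 h2) K rfl).2)
    refine ⟨hA, ?_⟩
    intro w N P a b g1 S
    exact b_step3 hcol hnb hG hK33 S hA (fun K h1 h2 => (ih _ (hlt K h1 h2) K rfl).2)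

/-- Three cops, one of the right parity, win from every position. -/
theorem sw_univ3 [Finite V] {col : V → Bool} (hcol : Col G col) (hnb : ∀ v : V, ∃ u, G.Adj v u)
    (hG : G.Connected) (hK33 : NoK33 G) {u v : V} (huv : G.Adj u v) :
    Sw G Set.univ ![free, free, wp col free] := by
  refine sw_att hnb (0 : Fin 3) (J := free) (h := edgeGuard u v) ?_ ?_ ?_ ?_
  · intro k _
    fin_cases k
    · exact isGuard_free hnb _
    · exact isGuard_free hnb _
    · exact isGuard_wp hcol (isGuard_free hnb _)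
  · intro r _ b hb
    exact absurd (Set.mem_univ b) hb
  · intro r hr c _
    obtain ⟨p⟩ := hG.preconnected c u
    exact att_walk (h := edgeGuard u v)
      (fun r _ => Att.done (show edgeGuard u v r u from Or.inl rfl)) p r hr
  rw [update3_0]
  refine sw_pass (Y := {u, v}) hnb ?_ ?_ ?_ ?_
  · intro k
    fin_cases k
    · exact isGuard_edge huv _
    · exact isGuard_free hnb _
    · exact isGuard_wp hcol (isGuard_free hnb _)
  · intro r _ b hb
    exact absurd (Set.mem_univ b) hb
  · rintro r _ _ b hb _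
    exact ⟨0, covers_edge huv r b hb⟩
  intro r0 hr0
  set K := comp G (Set.univ \ {u, v}) r0 with hKdef
  have hK : K ⊆ Set.univ \ {u, v} := comp_subset hr0
  refine (all_states3 hcol hnb hG hK33 _ K rfl).1 _ _ _ _ _ _ (astate_edge huv (K := K)
    (fun h => (hK h).2 (by simp)) (fun h => (hK h).2 (by simp)) (conn_comp _ _) ?_ hnb)
  intro r hr b hb ha
  by_contra h2
  push Not at h2
  exact hb (mem_comp_of_adj hr ha ⟨Set.mem_univ _, by simp [h2.1, h2.2]⟩)

/-- Three fully active cops win on every connected bipartite graph without `K_{3,3}` minor. -/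
theorem core3 [Fintype V] (hG : G.Connected) (hcard : 2 ≤ Fintype.card V)
    {col : V → Bool} (hcol : Col G col) (hK33 : NoK33 G) : CopsWin G 3 := by
  have hnt : Nontrivial V := Fintype.one_lt_card_iff_nontrivial.1 (by omega)
  have hnb : ∀ v : V, ∃ u, G.Adj v u := fun v => hG.preconnected.exists_adj_of_nontrivial v
  obtain ⟨u⟩ : Nonempty V := hG.nonempty
  obtain ⟨v, huv⟩ := hnb u
  have hsw := sw_univ3 hcol hnb hG hK33 huv
  refine copsWin_of_rwin hnb ![u, u, v] fun r => Or.inr ⟨![v, v, u], ?_, ?_⟩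
  · intro i
    fin_cases i
    · exact huv
    · exact huv
    · exact huv.symm
  · by_cases h : col u = col r
    · refine hsw _ r (Set.mem_univ r) fun i => ?_
      fin_cases i
      · trivial
      · trivial
      · exact ⟨trivial, h⟩
    · have hv : col v = col r := by
        have := hcol _ _ huv
        revert this h
        cases col u <;> cases col v <;> cases col r <;> simp
      have h1 : RWin G ![u, v, v] r := by
        refine hsw _ r (Set.mem_univ r) fun i => ?_
        fin_cases i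
        · trivial
        · trivial
        · exact ⟨trivial, hv⟩
      have h2 := h1.perm (Equiv.swap (0 : Fin 3) 2)
      have h3 : (![u, v, v] : Fin 3 → V) ∘ (Equiv.swap (0 : Fin 3) 2) = ![v, v, u] := by
        funext i
        fin_cases i <;> rfl
      rwa [h3] at h2

end Pool.Agent.Lib.MP9d0a1e
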