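import Pool.Agent.Lib.MP_9d0a1e_co.Bip.AStep3
import Pool.Agent.Lib.MP_9d0a1e_co.Plan

/-!
# The bipartite double cover, and planar graphs with at most two faces of odd length
-/

namespace Pool.Agent.Lib.MP9d0a1e

universe u

/-- The bipartite double cover `G × K₂`. -/
def dbl {V : Type u} (G : SimpleGraph V) : SimpleGraph (V × Bool) where
  Adj x y := G.Adj x.1 y.1 ∧ x.2 ≠ y.2
  symm := ⟨fun _ _ h => ⟨h.1.symm, h.2.symm⟩⟩
  loopless := ⟨fun _ h => h.2 rfl⟩

/-- An embedding in the sphere (see `Planar`) in which at most `m` faces have odd length. The length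
of a face is the number of its darts. -/
def PlanarOdd {V : Type u} [Fintype V] (G : SimpleGraph V) (m : ℕ) : Prop :=
  ∃ k : ℕ, k + Fintype.card V = 2 + Nat.card G.edgeSet ∧
    ∃ (σ φ : Equiv.Perm G.Dart) (face : G.Dart → Fin k),
      (∀ d : G.Dart, (σ d).fst = d.fst) ∧
      (∀ d d' : G.Dart, d.fst = d'.fst → ∃ n : ℕ, (σ ^ n) d = d') ∧
      (∀ d : G.Dart, φ d = σ d.symm) ∧
      (∀ d d' : G.Dart, face d = face d' ↔ ∃ n : ℕ, (φ ^ n) d = d') ∧
      Function.Surjective face ∧
      {f : Fin k | Odd (Nat.card {d : G.Dart // face d = f})}.ncard ≤ m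

variable {V : Type u} {G : SimpleGraph V}

theorem PlanarOdd.planar [Fintype V] {m : ℕ} (h : PlanarOdd G m) : Planar G := by
  obtain ⟨k, hE, σ, φ, face, p1, p2, p3, p4, p5, _⟩ := h
  exact ⟨k, hE, σ, φ, face, p1, p2, p3, p4, p5⟩

/-! ### The game on the double cover -/

/-- The history in the double cover. -/
def lift : List V → List (V × Bool)
  | [] => []
  | r :: l => (r, Nat.bodd l.length) :: lift l

theorem length_hist {W : Type*} (ρ : ℕ → W) (n : ℕ) : (hist ρ n).length = n := by
  induction n with
  | zero => rfl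
  | succ n ih => simp [hist, ih]

theorem lift_hist (ρ : ℕ → V) (n : ℕ) : hist (fun i => (ρ i, Nat.bodd i)) n = lift (hist ρ n) := by
  induction n with
  | zero => rfl
  | succ n ih => simp [hist, lift, ih, length_hist]

theorem copsWin_of_dbl {k : ℕ} (h : CopsWin (dbl G) k) : CopsWin G k := by
  obtain ⟨S, hS⟩ := h
  refine ⟨⟨fun l i => (S.pos (lift l) i).1, fun l r i => (S.adj (lift l) _ i).1⟩, fun ρ hρ => ?_⟩
  obtain ⟨n, i, hi⟩ := hS (fun i => (ρ i, Nat.bodd i)) fun n =>
    ⟨hρ n, by simp only [Nat.bodd_succ]; cases Nat.bodd n <;> simp⟩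
  rw [lift_hist, lift_hist] at hi
  refine ⟨n, i, ?_⟩
  rcases hi with hi | hi
  · exact Or.inl (congrArg Prod.fst hi)
  · exact Or.inr (congrArg Prod.fst hi)

theorem col_dbl : Col (dbl G) Prod.snd := fun _ _ h => h.2

/-! ### Connectedness of the double cover -/

theorem dbl_lift {u v : V} (p : G.Walk u v) (a : Bool) :
    ∃ b, (dbl G).Reachable (u, a) (v, b) ∧ (dbl G).Reachable (u, !a) (v, !b) := by
  induction p generalizing a with
  | nil => exact ⟨a, SimpleGraph.Reachable.refl _, SimpleGraph.Reachable.refl _⟩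
  | @cons u w v ha _ ih =>
    obtain ⟨b, h1, h2⟩ := ih (!a)
    have e1 : (dbl G).Adj (u, a) (w, !a) := ⟨ha, by cases a <;> simp⟩
    have e2 : (dbl G).Adj (u, !a) (w, !!a) := ⟨ha, by cases a <;> simp⟩
    exact ⟨b, e1.reachable.trans h1, e2.reachable.trans h2⟩

/-- If the double cover of a connected graph is not connected, the graph is bipartite. -/
theorem col_of_not_connected (hG : G.Connected) (h : ¬ (dbl G).Connected) :
    ∃ col : V → Bool, Col G col := by
  classical
  obtain ⟨v0⟩ := hG.nonempty
  have hone : ∀ u, ∃ b, (dbl G).Reachable (v0, false) (u, b) := by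
    intro u
    obtain ⟨p⟩ := hG.preconnected v0 u
    obtain ⟨b, h1, _⟩ := dbl_lift p false
    exact ⟨b, h1⟩
  have hnot : ∀ u, ¬ ((dbl G).Reachable (v0, false) (u, false) ∧
      (dbl G).Reachable (v0, false) (u, true)) := by
    rintro u ⟨h1, h2⟩
    apply h
    have hall : ∀ y : V × Bool, (dbl G).Reachable (v0, false) y := by
      rintro ⟨v, c⟩
      obtain ⟨p⟩ := hG.preconnected u v
      obtain ⟨b, h3, h4⟩ := dbl_lift p false
      by_cases hb : b = c
      · rw [← hb]; exact h1.trans h3
      · have : (!b) = c := by revert hb; cases b <;> cases c <;> simp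
        rw [← this]
        exact h2.trans h4
    have : Nonempty (V × Bool) := ⟨(v0, false)⟩
    exact ⟨fun x y => (hall x).symm.trans (hall y)⟩
  refine ⟨fun u => decide ((dbl G).Reachable (v0, false) (u, true)), fun u v huv hcol => ?_⟩
  have hiff : (dbl G).Reachable (v0, false) (u, true) ↔
      (dbl G).Reachable (v0, false) (v, true) := by
    simpa using hcol
  by_cases h1 : (dbl G).Reachable (v0, false) (u, true)
  · have h2 : (dbl G).Adj (u, true) (v, false) := ⟨huv, by simp⟩
    exact hnot v ⟨h1.trans h2.reachable, hiff.1 h1⟩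
  · obtain ⟨b, hb⟩ := hone u
    cases b with
    | true => exact h1 hb
    | false =>
      have h2 : (dbl G).Adj (u, false) (v, true) := ⟨huv, by simp⟩
      exact h1 (hiff.2 (hb.trans h2.reachable))

/-! ### The embedding of the double cover -/

/-- Darts of the double cover. -/
def dd (G : SimpleGraph V) : (dbl G).Dart ≃ G.Dart × Bool where
  toFun d := (⟨(d.fst.1, d.snd.1), d.adj.1⟩, d.fst.2)
  invFun p := ⟨((p.1.fst, p.2), (p.1.snd, !p.2)), ⟨p.1.adj, by cases p.2 <;> simp⟩⟩
  left_inv d := by
    apply SimpleGraph.Dart.ext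
    apply Prod.ext
    · rfl
    · apply Prod.ext
      · rfl
      · have := d.adj.2
        show (!d.fst.2) = d.snd.2
        revert this
        cases d.fst.2 <;> cases d.snd.2 <;> simp
  right_inv p := rfl

theorem dd_symm (d : (dbl G).Dart) : dd G d.symm = (((dd G d).1).symm, !(dd G d).2) := by
  apply Prod.ext
  · rfl
  · have := d.adj.2
    show d.snd.2 = !d.fst.2
    revert this
    cases d.fst.2 <;> cases d.snd.2 <;> simp

/-- The rotation of the double cover. -/
def sig (σ : Equiv.Perm G.Dart) : Equiv.Perm (G.Dart × Bool) where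
  toFun p := (σ p.1, p.2)
  invFun p := (σ.symm p.1, p.2)
  left_inv p := by simp
  right_inv p := by simp

/-- The face permutation of the double cover. -/
def phi (φ : Equiv.Perm G.Dart) : Equiv.Perm (G.Dart × Bool) where
  toFun p := (φ p.1, !p.2)
  invFun p := (φ.symm p.1, !p.2)
  left_inv p := by simp
  right_inv p := by simp

/-- Conjugation with `dd`. -/
def cjd (π : Equiv.Perm (G.Dart × Bool)) : Equiv.Perm (dbl G).Dart :=
  (dd G).trans (π.trans (dd G).symm)

theorem cjd_apply (π : Equiv.Perm (G.Dart × Bool)) (d : (dbl G).Dart) :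
    dd G (cjd π d) = π (dd G d) := by
  show dd G ((dd G).symm (π (dd G d))) = _
  rw [Equiv.apply_symm_apply]

theorem cjd_pow (π : Equiv.Perm (G.Dart × Bool)) (n : ℕ) (d : (dbl G).Dart) :
    dd G ((cjd π ^ n) d) = (π ^ n) (dd G d) := by
  induction n generalizing d with
  | zero => rfl
  | succ n ih => rw [pow_succ, pow_succ, Equiv.Perm.mul_apply, Equiv.Perm.mul_apply, ih, cjd_apply]

theorem sig_pow (σ : Equiv.Perm G.Dart) (n : ℕ) (p : G.Dart × Bool) :
    (sig σ ^ n) p = ((σ ^ n) p.1, p.2) := by
  induction n generalizing p with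
  | zero => rfl
  | succ n ih => rw [pow_succ, pow_succ, Equiv.Perm.mul_apply, Equiv.Perm.mul_apply, ih]; rfl

theorem phi_pow (φ : Equiv.Perm G.Dart) (n : ℕ) (p : G.Dart × Bool) :
    (phi φ ^ n) p = ((φ ^ n) p.1, xor (Nat.bodd n) p.2) := by
  induction n generalizing p with
  | zero => simp
  | succ n ih =>
    rw [pow_succ, pow_succ, Equiv.Perm.mul_apply, Equiv.Perm.mul_apply, ih, Nat.bodd_succ]
    show ((φ ^ n) (φ p.1), xor (Nat.bodd n) (!p.2)) = _
    congr 1
    cases Nat.bodd n <;> cases p.2 <;> rfl

/-- On the faces of even length the darts can be coloured alternately. -/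
theorem exists_par [Fintype V] {k : ℕ} (φ : Equiv.Perm G.Dart) (face : G.Dart → Fin k)
    (h4 : ∀ d d' : G.Dart, face d = face d' ↔ ∃ n : ℕ, (φ ^ n) d = d')
    (h5 : Function.Surjective face) :
    (∀ d, (φ ^ (Nat.card {d' : G.Dart // face d' = face d})) d = d) ∧
    ∃ par : G.Dart → Bool, ∀ d, ¬ Odd (Nat.card {d' : G.Dart // face d' = face d}) →
      par (φ d) = !par d := by
  classical
  let s : Fin k → Finset G.Dart := fun f => Finset.univ.filter fun d => face d = f
  have hmem : ∀ d f, d ∈ s f ↔ face d = f := by intro d f; simp [s]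
  have hcard : ∀ f, Nat.card {d' : G.Dart // face d' = f} = (s f).card := by
    intro f
    rw [Nat.card_eq_fintype_card, Fintype.card_subtype]
  have hφ : ∀ d, face (φ d) = face d := fun d => ((h4 d (φ d)).2 ⟨1, by simp⟩).symm
  have hcyc : ∀ f, φ.IsCycleOn (s f : Set G.Dart) := by
    intro f
    refine ⟨⟨?_, φ.injective.injOn, ?_⟩, ?_⟩
    · intro d hd
      have : face d = f := (hmem d f).1 hd
      exact (hmem _ _).2 ((hφ d).trans this)
    · intro d hd
      have h1 : face d = f := (hmem d f).1 hd
      refine ⟨φ.symm d, (hmem _ _).2 ?_, by simp⟩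
      have := hφ (φ.symm d)
      rw [Equiv.apply_symm_apply] at this
      rw [← this, h1]
    · intro d hd d' hd'
      have h1 : face d = f := (hmem d f).1 hd
      have h2 : face d' = f := (hmem d' f).1 hd'
      obtain ⟨n, hn⟩ := (h4 d d').1 (h1.trans h2.symm)
      exact ⟨n, by simpa using hn⟩
  refine ⟨fun d => ?_, ?_⟩
  · rw [hcard]
    exact (hcyc (face d)).pow_card_apply ((hmem _ _).2 rfl)
  · choose b hb using h5
    have hn : ∀ d, ∃ n : ℕ, (φ ^ n) (b (face d)) = d := fun d => (h4 _ _).1 (hb _)
    choose n hn using hn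
    refine ⟨fun d => Nat.bodd (n d), fun d hd => ?_⟩
    rw [hcard, Nat.not_odd_iff_even] at hd
    have h1 : (φ ^ (n d + 1)) (b (face d)) = φ d := by
      rw [pow_succ', Equiv.Perm.mul_apply, hn]
    have h2 := hn (φ d)
    rw [hφ d] at h2
    have h3 := ((hcyc (face d)).pow_apply_eq_pow_apply ((hmem _ _).2 (hb _))).1
      (h2.trans h1.symm)
    have h4' : n (φ d) ≡ n d + 1 [MOD 2] := h3.of_dvd hd.two_dvd
    have h6 : Nat.bodd (n (φ d)) = Nat.bodd (n d + 1) := by
      have h7 : n (φ d) % 2 = (n d + 1) % 2 := h4'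
      rw [Nat.mod_two_of_bodd, Nat.mod_two_of_bodd] at h7
      revert h7
      cases Nat.bodd (n (φ d)) <;> cases Nat.bodd (n d + 1) <;> simp
    show Nat.bodd (n (φ d)) = !Nat.bodd (n d)
    rw [h6, Nat.bodd_succ]

/-- Euler's inequality. -/
theorem euler_le [Fintype V] {k : ℕ} (T : Plan.Rot G k) (hG : G.Connected) :
    k + Fintype.card V ≤ 2 + Nat.card G.edgeSet := by
  classical
  have hle : LinearMap.range (Plan.cob T.face) ≤ LinearMap.ker (Plan.bd (G := G)) := by
    rintro _ ⟨g, rfl⟩
    exact T.bd_cob g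
  have r1 := Plan.rank_bd hG
  have r2 := LinearMap.finrank_range_add_finrank_ker (Plan.bd (G := G))
  have r3 := LinearMap.finrank_range_add_finrank_ker (Plan.cob T.face)
  have r4 : Module.finrank (ZMod 2) (G.edgeSet → ZMod 2) = Nat.card G.edgeSet := by
    rw [Module.finrank_fintype_fun_eq_card, Nat.card_eq_fintype_card]
  have r5 : Module.finrank (ZMod 2) (Fin k → ZMod 2) = k := by
    rw [Module.finrank_fintype_fun_eq_card, Fintype.card_fin]
  have r6 : Module.finrank (ZMod 2) (LinearMap.ker (Plan.cob T.face)) ≤ 1 := by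
    have hsub : LinearMap.ker (Plan.cob T.face) ≤
        Submodule.span (ZMod 2) {(fun _ => 1 : Fin k → ZMod 2)} := by
      intro g hg
      rw [Submodule.mem_span_singleton]
      by_cases hk : Nonempty (Fin k)
      · obtain ⟨a⟩ := hk
        refine ⟨g a, ?_⟩
        funext b
        simp only [Pi.smul_apply, smul_eq_mul, mul_one]
        exact T.const hG g hg a b
      · refine ⟨0, ?_⟩
        funext b
        exact absurd ⟨b⟩ hk
    refine (Submodule.finrank_mono hsub).trans ((finrank_span_le_card _).trans ?_)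
    simp
  have r7 := Submodule.finrank_mono hle
  omega

theorem card_dbl_edges [Fintype V] :
    Nat.card (dbl G).edgeSet = 2 * Nat.card G.edgeSet := by
  classical
  have h1 := G.dart_card_eq_twice_card_edges
  have h2 := (dbl G).dart_card_eq_twice_card_edges
  have h3 : Fintype.card (dbl G).Dart = Fintype.card G.Dart * 2 := by
    rw [Fintype.card_congr (dd G), Fintype.card_prod, Fintype.card_bool]
  rw [Nat.card_eq_fintype_card, Nat.card_eq_fintype_card, ← SimpleGraph.edgeFinset_card,
    ← SimpleGraph.edgeFinset_card]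
  omega

/-- The embedding of the double cover. -/
theorem exists_rot_dbl [Fintype V] {k : ℕ} (T : Plan.Rot G k) :
    ∃ k' : ℕ, k' + {f : Fin k | Odd (Nat.card {d : G.Dart // T.face d = f})}.ncard = 2 * k ∧
      Nonempty (Plan.Rot (dbl G) k') := by
  classical
  obtain ⟨hL, par, hpar⟩ := exists_par T.φ T.face T.h4 T.h5
  let od : Fin k → Prop := fun f => Odd (Nat.card {d : G.Dart // T.face d = f})
  let F := {p : Fin k × Bool // od p.1 → p.2 = false}
  let fc : G.Dart × Bool → F := fun p =>
    ⟨(T.face p.1, if od (T.face p.1) then false else xor p.2 (par p.1)), fun h => by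
      simp only [h, if_true]⟩
  have hφ : ∀ d, T.face (T.φ d) = T.face d := fun d => ((T.h4 d (T.φ d)).2 ⟨1, by simp⟩).symm
  -- the face map is invariant
  have hinv : ∀ p, fc (phi T.φ p) = fc p := by
    rintro ⟨d, a⟩
    apply Subtype.ext
    apply Prod.ext
    · exact hφ d
    · show (if od (T.face (T.φ d)) then false else xor (!a) (par (T.φ d))) =
        if od (T.face d) then false else xor a (par d)
      rw [hφ d]
      by_cases h : od (T.face d)
      · rw [if_pos h, if_pos h]
      · rw [if_neg h, if_neg h, hpar d h]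
        cases a <;> cases par d <;> rfl
  have hinvn : ∀ (n : ℕ) p, fc ((phi T.φ ^ n) p) = fc p := by
    intro n
    induction n with
    | zero => intro p; rfl
    | succ n ih => intro p; rw [pow_succ, Equiv.Perm.mul_apply, ih, hinv]
  have hiff : ∀ p p' : G.Dart × Bool, fc p = fc p' ↔ ∃ n : ℕ, (phi T.φ ^ n) p = p' := by
    intro p p'
    constructor
    · intro h
      have h1 : T.face p.1 = T.face p'.1 := congrArg (fun x : F => x.1.1) h
      have h2 : (if od (T.face p.1) then false else xor p.2 (par p.1)) =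
          if od (T.face p'.1) then false else xor p'.2 (par p'.1) :=
        congrArg (fun x : F => x.1.2) h
      obtain ⟨n, hn⟩ := (T.h4 _ _).1 h1
      by_cases ho : od (T.face p.1)
      · by_cases hb : xor (Nat.bodd n) p.2 = p'.2
        · exact ⟨n, by rw [phi_pow, hn, hb]⟩
        · refine ⟨n + Nat.card {d' : G.Dart // T.face d' = T.face p.1}, ?_⟩
          rw [phi_pow, pow_add, Equiv.Perm.mul_apply, hL, hn, Nat.bodd_add]
          have hodd : Nat.bodd (Nat.card {d' : G.Dart // T.face d' = T.face p.1}) = true := by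
            have h3 : Nat.card {d' : G.Dart // T.face d' = T.face p.1} % 2 = 1 :=
              Nat.odd_iff.1 ho
            rw [Nat.mod_two_of_bodd] at h3
            revert h3
            cases Nat.bodd (Nat.card {d' : G.Dart // T.face d' = T.face p.1}) <;> simp
          rw [hodd]
          apply Prod.ext
          · rfl
          · show xor (xor (Nat.bodd n) true) p.2 = p'.2
            revert hb
            cases Nat.bodd n <;> cases p.2 <;> cases p'.2 <;> simp
      · refine ⟨n, ?_⟩
        have ho' : ¬ od (T.face p'.1) := by rw [← h1]; exact ho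
        rw [if_neg ho, if_neg ho'] at h2
        have hparn : ∀ (n : ℕ) d, ¬ od (T.face d) →
            par ((T.φ ^ n) d) = xor (Nat.bodd n) (par d) := by
          intro n
          induction n with
          | zero => intro d _; simp
          | succ n ih =>
            intro d hd
            rw [pow_succ, Equiv.Perm.mul_apply, ih _ (by rw [hφ d]; exact hd), hpar d hd,
              Nat.bodd_succ]
            cases Nat.bodd n <;> cases par d <;> rfl
        have h3 := hparn n p.1 ho
        rw [hn] at h3
        rw [phi_pow, hn]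
        apply Prod.ext
        · rfl
        · show xor (Nat.bodd n) p.2 = p'.2
          rw [h3] at h2
          revert h2
          cases Nat.bodd n <;> cases p.2 <;> cases p'.2 <;> cases par p.1 <;> simp
    · rintro ⟨n, rfl⟩
      exact (hinvn n p).symm
  have hsurj : Function.Surjective fc := by
    rintro ⟨⟨f, b⟩, hf⟩
    obtain ⟨d, rfl⟩ := T.h5 f
    by_cases ho : od (T.face d)
    · refine ⟨(d, false), ?_⟩
      apply Subtype.ext
      apply Prod.ext
      · rfl
      · show (if od (T.face d) then false else xor false (par d)) = b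
        rw [if_pos ho]
        exact (hf ho).symm
    · refine ⟨(d, xor b (par d)), ?_⟩
      apply Subtype.ext
      apply Prod.ext
      · rfl
      · show (if od (T.face d) then false else xor (xor b (par d)) (par d)) = b
        rw [if_neg ho]
        cases b <;> cases par d <;> rfl
  -- the number of faces
  have hcardF : Fintype.card F + {f : Fin k | od f}.ncard = 2 * k := by
    have h1 : Fintype.card {p : Fin k × Bool // ¬ (od p.1 → p.2 = false)} =
        {f : Fin k | od f}.ncard := by
      rw [← Nat.card_coe_set_eq, Nat.card_eq_fintype_card]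
      refine Fintype.card_congr ⟨fun p => ⟨p.1.1, ?_⟩, fun f => ⟨(f.1, true), ?_⟩, ?_, ?_⟩
      · by_contra h
        exact p.2 fun h' => absurd h' h
      · intro h
        exact absurd (h f.2) (by simp)
      · rintro ⟨⟨f, b⟩, hp⟩
        have hb : b = true := by
          cases b with
          | true => rfl
          | false => exact absurd (fun _ => rfl) hp
        subst hb
        rfl
      · rintro ⟨f, hf⟩
        rfl
    have h2 : Fintype.card {p : Fin k × Bool // ¬ (od p.1 → p.2 = false)} =
        Fintype.card (Fin k × Bool) - Fintype.card F := by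
      convert Fintype.card_subtype_compl (fun p : Fin k × Bool => od p.1 → p.2 = false)
    have h3 : Fintype.card (Fin k × Bool) = 2 * k := by
      rw [Fintype.card_prod, Fintype.card_fin, Fintype.card_bool, mul_comm]
    have h4 : Fintype.card F ≤ Fintype.card (Fin k × Bool) := Fintype.card_subtype_le _
    rw [h1, h3] at h2
    omega
  refine ⟨Fintype.card F, hcardF, ⟨⟨cjd (sig T.σ), cjd (phi T.φ),
    fun d => Fintype.equivFin F (fc (dd G d)), ?_, ?_, ?_, ?_, ?_⟩⟩⟩
  · intro d
    have h1 := cjd_apply (sig T.σ) d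
    have h2 : ((dd G (cjd (sig T.σ) d)).1).fst = ((dd G d).1).fst := by
      rw [h1]; exact T.h1 _
    have h3 : (dd G (cjd (sig T.σ) d)).2 = (dd G d).2 := by rw [h1]; rfl
    exact Prod.ext h2 h3
  · intro d d' h
    have ha : d.fst.1 = d'.fst.1 := congrArg Prod.fst h
    have hb : d.fst.2 = d'.fst.2 := congrArg Prod.snd h
    obtain ⟨n, hn⟩ := T.h2 (dd G d).1 (dd G d').1 ha
    refine ⟨n, ?_⟩
    apply (dd G).injective
    rw [cjd_pow, sig_pow, hn]
    exact Prod.ext rfl hb
  · intro d
    apply (dd G).injective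
    rw [cjd_apply, cjd_apply, dd_symm]
    show (T.φ (dd G d).1, !(dd G d).2) = (T.σ ((dd G d).1).symm, !(dd G d).2)
    rw [T.h3]
  · intro d d'
    rw [(Fintype.equivFin F).injective.eq_iff, hiff]
    constructor
    · rintro ⟨n, hn⟩
      exact ⟨n, (dd G).injective (by rw [cjd_pow, hn])⟩
    · rintro ⟨n, hn⟩
      exact ⟨n, by rw [← cjd_pow, hn]⟩
  · intro x
    obtain ⟨p, hp⟩ := hsurj ((Fintype.equivFin F).symm x)
    refine ⟨(dd G).symm p, ?_⟩
    show Fintype.equivFin F (fc (dd G ((dd G).symm p))) = x
    rw [Equiv.apply_symm_apply, hp, Equiv.apply_symm_apply]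

/-- Three fully active cops win on every connected planar graph with an embedding in which at most
two faces have odd length. -/
theorem core_two_odd [Fintype V] (hG : G.Connected) (hcard : 2 ≤ Fintype.card V)
    (h : PlanarOdd G 2) : CopsWin G 3 := by
  classical
  have hplan := h.planar
  by_cases hc : (dbl G).Connected
  · obtain ⟨k, hE, σ, φ, face, p1, p2, p3, p4, p5, p6⟩ := h
    let T : Plan.Rot G k := ⟨σ, φ, face, p1, p2, p3, p4, p5⟩
    obtain ⟨k', hk', ⟨T'⟩⟩ := exists_rot_dbl T
    have h1 := euler_le T' hc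
    have h2 : Fintype.card (V × Bool) = 2 * Fintype.card V := by
      rw [Fintype.card_prod, Fintype.card_bool, mul_comm]
    have h3 := card_dbl_edges (G := G)
    have h4 : {f : Fin k | Odd (Nat.card {d : G.Dart // T.face d = f})}.ncard ≤ 2 := p6
    have hP : Planar (dbl G) :=
      ⟨k', by rw [h2, h3] at h1 ⊢; omega, T'.σ, T'.φ, T'.face, T'.h1, T'.h2, T'.h3, T'.h4, T'.h5⟩
    exact copsWin_of_dbl (core3 hc (by omega) col_dbl (specPlan _ _ hc hP))
  · obtain ⟨col, hcol⟩ := col_of_not_connected hG hc
    exact core3 hG hcard hcol (specPlan _ _ hG hplan)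

end Pool.Agent.Lib.MP9d0a1e
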