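import Pool.Agent.Lib.MP_9d0a1e_co.States

/-!
# Bipartite graphs: guards of the right parity
-/

namespace Pool.Agent.Lib.MP9d0a1e

universe u

variable {V : Type u} {G : SimpleGraph V}

/-- `col` is a proper 2-colouring. -/
def Col (G : SimpleGraph V) (col : V → Bool) : Prop := ∀ u v, G.Adj u v → col u ≠ col v

/-- The relation `g` together with the right parity: cop and robber stand on the same colour when
the robber is to move. -/
def wp (col : V → Bool) (g : V → V → Prop) : V → V → Prop := fun r c => g r c ∧ col c = col r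

theorem Col.step {col : V → Bool} (h : Col G col) {r r' c c' : V} (hr : G.Adj r r')
    (hc : G.Adj c c') (he : col c = col r) : col c' = col r' := by
  have h1 := h _ _ hr
  have h2 := h _ _ hc
  revert h1 h2 he
  cases col r <;> cases col r' <;> cases col c <;> cases col c' <;> simp

theorem isGuard_wp {col : V → Bool} (hcol : Col G col) {R : Set V} {g : V → V → Prop}
    (hg : IsGuard G R g) : IsGuard G R (wp col g) := by
  intro r hr r' hr' ha c hc
  obtain ⟨c', h1, h2⟩ := hg r hr r' hr' ha c hc.1
  exact ⟨c', h1, h2, hcol.step ha h1 hc.2⟩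

theorem Covers.wp {col : V → Bool} {g : V → V → Prop} {r b : V} (h : Covers G g r b) :
    Covers G (wp col g) r b := fun c hc => h c hc.1

theorem Att.wp {col : V → Bool} (hcol : Col G col) {R : Set V} {J h : V → V → Prop} {r c : V}
    (ha : Att G R J h r c) : col c = col r → Att G R (wp col J) (wp col h) r c := by
  induction ha with
  | done hh => exact fun he => Att.done ⟨hh, he⟩
  | step hJ f h1 _ ih =>
    exact fun he => Att.step ⟨hJ, he⟩ f h1 fun r' hr' ha =>
      ih r' hr' ha (hcol.step ha (h1 r' hr' ha) he)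

namespace GPath

variable {R : Set V}

/-- A cop of the right parity in lower mode guards the whole path. -/
theorem covers_full {col : V → Bool} (hcol : Col G col) (P : GPath G R) {r : V} {w : ℤ}
    (hr : r ∈ R) (hw : P.lo ≤ w) (hw' : w ≤ P.hi) (ha : G.Adj r (P.q w)) :
    Covers G (wp col P.low) r (P.q w) := by
  rintro c ⟨hc, he⟩
  obtain ⟨x, rfl, hx⟩ := P.low_iff.1 hc
  have h1 := P.le_al hw hw' (Reach.one hr ha)
  have h2 := P.be_le hw hw' (Reach.one hr ha)
  have h3 := P.al_le_be hr
  have h4 := P.lo_lt_be hr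
  have h5 := P.be_le_hi r
  push_cast at h1 h2
  have hne : col r ≠ col (P.q w) := hcol _ _ ha
  have h6 : x = w - 2 ∨ x = w - 1 ∨ x = w ∨ x = w + 1 := by omega
  rcases h6 with rfl | rfl | rfl | rfl
  · exfalso
    have a1 := P.adj (w - 2) (by omega) (by omega)
    have a2 := P.adj (w - 1) (by omega) (by omega)
    rw [show w - 2 + 1 = w - 1 by ring] at a1
    rw [show w - 1 + 1 = w by ring] at a2
    have b1 := hcol _ _ a1
    have b2 := hcol _ _ a2
    revert b1 b2 he hne
    cases col r <;> cases col (P.q w) <;> cases col (P.q (w - 1)) <;> cases col (P.q (w - 2)) <;>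
      simp
  · right
    have := P.adj (w - 1) (by omega) (by omega)
    rwa [sub_add_cancel] at this
  · exact absurd he.symm hne
  · right
    exact (P.adj w (by omega) (by omega)).symm

end GPath

/-! ### Three relations -/

theorem update3_0 {α : Type*} (p q r t : α) :
    Function.update ![p, q, r] 0 t = ![t, q, r] := by
  funext i; fin_cases i <;> rfl

theorem update3_1 {α : Type*} (p q r t : α) :
    Function.update ![p, q, r] 1 t = ![p, t, r] := by
  funext i; fin_cases i <;> rfl

theorem update3_2 {α : Type*} (p q r t : α) :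
    Function.update ![p, q, r] 2 t = ![p, q, t] := by
  funext i; fin_cases i <;> rfl

/-- A permutation of the three cops. -/
theorem sw_perm3 {R : Set V} {p q r : V → V → Prop} (e e' : Fin 3 → Fin 3)
    (h1 : ∀ i, e' (e i) = i) (h2 : ∀ i, e (e' i) = i)
    (h : Sw G R ![![p, q, r] (e 0), ![p, q, r] (e 1), ![p, q, r] (e 2)]) :
    Sw G R ![p, q, r] := by
  refine Sw.perm (⟨e, e', h1, h2⟩ : Equiv.Perm (Fin 3)) ?_
  have : (fun i => ![p, q, r] ((⟨e, e', h1, h2⟩ : Equiv.Perm (Fin 3)) i)) =
      ![![p, q, r] (e 0), ![p, q, r] (e 1), ![p, q, r] (e 2)] := by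
    funext i; fin_cases i <;> rfl
  rw [this]
  exact h

/-- Weakening the three relations. -/
theorem sw_mono3 {R : Set V} {p q r p' q' r' : V → V → Prop}
    (h : Sw G R ![p', q', r']) (h1 : ∀ x ∈ R, ∀ c, p x c → p' x c)
    (h2 : ∀ x ∈ R, ∀ c, q x c → q' x c) (h3 : ∀ x ∈ R, ∀ c, r x c → r' x c) :
    Sw G R ![p, q, r] := by
  refine h.mono ?_
  intro i
  fin_cases i
  · exact h1
  · exact h2
  · exact h3

theorem cov3 {R : Set V} {p q r : V → V → Prop}
    (h : ∀ x ∈ R, ∀ b, b ∉ R → G.Adj x b → Covers G p x b ∨ Covers G q x b ∨ Covers G r x b) :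
    Cov G R ![p, q, r] := by
  intro x hx b hb ha
  rcases h x hx b hb ha with h | h | h
  · exact ⟨0, h⟩
  · exact ⟨1, h⟩
  · exact ⟨2, h⟩

end Pool.Agent.Lib.MP9d0a1e
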