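import Pool.Agent.Lib.MP_9d0a1e_co.States

/-!
# Two fully active cops on graphs without `K₄` minor
-/

namespace Pool.Agent.Lib.MP9d0a1e

universe u

variable {V : Type u} {G : SimpleGraph V}

/-- The graph has no `K₄` minor: there are no four pairwise disjoint connected vertex sets with an
edge between any two of them. -/
def NoK4 {V : Type u} (G : SimpleGraph V) : Prop :=
  ¬ ∃ A : Fin 4 → Set V, (∀ i, (G.induce (A i)).Connected) ∧
    (∀ i j, i ≠ j → Disjoint (A i) (A j)) ∧ ∀ i j, i ≠ j → ∃ a ∈ A i, ∃ b ∈ A j, G.Adj a b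

/-- The cop is at least as close to `s` as the robber. -/
def near (G : SimpleGraph V) (R : Set V) (s : V) : V → V → Prop := fun r c =>
  ∃ m, Reach G Set.univ m c s ∧ ∀ n, Reach G R n r s → m ≤ n

theorem isGuard_near (hnb : ∀ v : V, ∃ u, G.Adj v u) {R : Set V} {s : V} (hs : s ∉ R) :
    IsGuard G R (near G R s) := by
  rintro r hr r' hr' ha c ⟨m, hm, hmin⟩
  rcases m with _ | m
  · obtain ⟨u, hu⟩ := hnb c
    have h1 := hu.symm
    rw [hm.eq_zero] at h1
    refine ⟨u, hu, 1, Reach.one (Set.mem_univ _) h1, fun n hn => ?_⟩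
    cases n with
    | zero => exact absurd (hn.eq_zero ▸ hr') hs
    | succ n => omega
  · cases hm with
    | @step _ _ c' _ _ hc h =>
      refine ⟨c', hc, m, h, fun n hn => ?_⟩
      have := hmin (n + 1) (Reach.step hr ha hn)
      omega

theorem covers_near {R : Set V} {s r : V} (hr : r ∈ R) (ha : G.Adj r s) :
    Covers G (near G R s) r s := by
  rintro c ⟨m, hm, hmin⟩
  have h1 := hmin 1 (Reach.one hr ha)
  have h2 : m = 0 ∨ m = 1 := by omega
  rcases h2 with rfl | rfl
  · exact Or.inl hm.eq_zero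
  · cases hm with
    | step _ hc h => exact Or.inr (h.eq_zero ▸ hc)

namespace GPath

variable {R : Set V}

/-- Moving along the path. -/
theorem reach_univ_up (P : GPath G R) (n : ℕ) : ∀ x, P.lo ≤ x → x + n ≤ P.hi →
    Reach G Set.univ n (P.q x) (P.q (x + n)) := by
  induction n with
  | zero => intro x _ _; simpa using Reach.zero (P.q x)
  | succ n ih =>
    intro x h1 h2
    push_cast at h2
    have h3 := ih (x + 1) (by omega) (by omega)
    have h4 := Reach.step (Set.mem_univ _) (P.adj x h1 (by omega)) h3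
    rwa [show x + 1 + (n : ℤ) = x + ((n + 1 : ℕ) : ℤ) by push_cast; ring] at h4

theorem reach_univ (P : GPath G R) {x y : ℤ} (hx : P.lo ≤ x) (hx' : x ≤ P.hi) (hy : P.lo ≤ y)
    (hy' : y ≤ P.hi) : Reach G Set.univ (x - y).natAbs (P.q x) (P.q y) := by
  rcases le_total x y with h | h
  · have := P.reach_univ_up (x - y).natAbs x hx (by omega)
    rwa [show x + (((x - y).natAbs : ℕ) : ℤ) = y by omega] at this
  · have := P.reach_univ_up (x - y).natAbs y hy (by omega)
    rw [show y + (((x - y).natAbs : ℕ) : ℤ) = x by omega] at this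
    exact this.symm (Set.mem_univ _)

/-- A cop near the upper end, on the path at a level at least `al`, reaches upper mode. -/
theorem att_near_path (P : GPath G R) (k : ℕ) : ∀ r ∈ R, ∀ x, P.lo ≤ x → x ≤ P.hi →
    x - P.lo ≤ k → P.al r ≤ x → Att G R (near G R (P.q P.hi)) P.up r (P.q x) := by
  induction k with
  | zero =>
    intro r _ x h1 h2 h3 h4
    exact Att.done ⟨x, rfl, by have := P.lo_le_al r; push_cast at h3; omega⟩
  | succ k ih =>
    intro r hr x h1 h2 h3 h4
    by_cases h5 : x ≤ P.al r + 1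
    · exact Att.done ⟨x, rfl, by omega⟩
    · refine Att.step' ?_ fun r' hr' ha => ⟨P.q (x - 1), ?_, ?_⟩
      · refine ⟨_, P.reach_univ h1 h2 P.lt.le le_rfl, fun n hn => ?_⟩
        have := P.le_al P.lt.le le_rfl hn
        omega
      · have h6 := P.lo_le_al r
        have := P.adj (x - 1) (by omega) (by omega)
        rw [sub_add_cancel] at this
        exact this.symm
      · have h6 := P.lo_le_al r
        have h7 := P.al_lip hr ha
        exact ih r' hr' (x - 1) (by omega) (by omega) (by push_cast at h3; omega) (by omega)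

/-- From the guard of the upper end to upper mode. -/
theorem att_near (P : GPath G R) : ∀ r ∈ R, ∀ c, near G R (P.q P.hi) r c →
    Att G R (near G R (P.q P.hi)) P.up r c := by
  have key : ∀ (m : ℕ) (r c : V), r ∈ R → Reach G Set.univ m c (P.q P.hi) →
      (∀ n, Reach G R n r (P.q P.hi) → m ≤ n) → Att G R (near G R (P.q P.hi)) P.up r c := by
    intro m
    induction m with
    | zero =>
      intro r c hr h _
      rw [h.eq_zero]
      exact P.att_near_path (P.hi - P.lo).toNat r hr P.hi P.lt.le le_rfl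
        (by have := P.lt; omega) (P.al_lt_hi hr).le
    | succ m ih =>
      intro r c hr h hmin
      refine Att.step' ⟨_, h, hmin⟩ fun r' hr' ha => ?_
      cases h with
      | @step _ _ c' _ _ hc h =>
        refine ⟨c', hc, ih r' c' hr' h fun n hn => ?_⟩
        have := hmin (n + 1) (Reach.step hr ha hn)
        omega
  rintro r hr c ⟨m, hm, hmin⟩
  exact key m r c hr hm hmin

/-- From the guard of the lower end to lower mode. -/
theorem att_near_low (P : GPath G R) : ∀ r ∈ R, ∀ c, near G R (P.q P.lo) r c →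
    Att G R (near G R (P.q P.lo)) P.low r c := by
  have h := P.rev.att_near
  have e : P.rev.q P.rev.hi = P.q P.lo := by simp [rev]
  rwa [e] at h

/-- Upper mode on the path guards the highest vertex to which a component is attached. -/
theorem near_of_up (P : GPath G R) {Y : Set V} {r0 r c : V} (h0 : r0 ∈ R \ Y)
    (hY : ∀ y ∈ Y, ∃ x, P.lo ≤ x ∧ x ≤ P.hi ∧ P.q x = y)
    (hout : ∀ x, P.lo ≤ x → x ≤ P.hi → P.q x ∉ comp G (R \ Y) r0)
    {y : ℤ} (hy : P.lo ≤ y) (hy' : y ≤ P.hi)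
    (hmax : ∀ x, P.lo ≤ x → x ≤ P.hi → ∀ r ∈ comp G (R \ Y) r0, G.Adj r (P.q x) → x ≤ y)
    (hr : r ∈ comp G (R \ Y) r0) (hc : P.up r c) :
    near G (comp G (R \ Y) r0) (P.q y) r c := by
  rw [← P.up_restrict h0 hY hr c] at hc
  set K := comp G (R \ Y) r0 with hK
  have hKR : K ⊆ R := fun _ hx => (comp_subset h0 hx).1
  obtain ⟨p, rfl, hp⟩ := hc
  have h1 := (P.restrict hKR).lo_le_al r
  have h2 := (P.restrict hKR).al_lt_hi hr
  have e1 : (P.restrict hKR).lo = P.lo := rfl
  have e2 : (P.restrict hKR).hi = P.hi := rfl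
  refine ⟨_, P.reach_univ (x := p) (by omega) (by omega) hy hy', fun n hn => ?_⟩
  have h3 : n ≠ 0 := by
    rintro rfl
    exact hout y hy hy' (hn.eq_zero ▸ hr)
  have h4 := (P.restrict hKR).le_al (r := r) (x := y) hy hy' hn
  have h5 : (P.restrict hKR).al r ≤ y := by
    rcases (P.restrict hKR).al_mem r with h | ⟨x, m, g1, g2, g3, g4⟩
    · rw [h]; exact hy
    · have h6 : r ≠ P.q x := fun h => hout x g1 g2 (h ▸ hr)
      obtain ⟨u, hu, hua⟩ := g3.last h6
      have := hmax x g1 g2 u hu hua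
      omega
  omega

/-- Lower mode on the path guards the lowest vertex to which a component is attached. -/
theorem near_of_low (P : GPath G R) {Y : Set V} {r0 r c : V} (h0 : r0 ∈ R \ Y)
    (hY : ∀ y ∈ Y, ∃ x, P.lo ≤ x ∧ x ≤ P.hi ∧ P.q x = y)
    (hout : ∀ x, P.lo ≤ x → x ≤ P.hi → P.q x ∉ comp G (R \ Y) r0)
    {y : ℤ} (hy : P.lo ≤ y) (hy' : y ≤ P.hi)
    (hmin : ∀ x, P.lo ≤ x → x ≤ P.hi → ∀ r ∈ comp G (R \ Y) r0, G.Adj r (P.q x) → y ≤ x)
    (hr : r ∈ comp G (R \ Y) r0) (hc : P.low r c) :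
    near G (comp G (R \ Y) r0) (P.q y) r c := by
  have h := P.rev.near_of_up (Y := Y) (r0 := r0) (y := -y) h0 ?_ ?_ ?_ ?_ ?_ hr hc
  · have e : P.rev.q (-y) = P.q y := by simp [rev]
    rwa [e] at h
  · intro z hz
    obtain ⟨x, h1, h2, h3⟩ := hY z hz
    exact ⟨-x, by simp [rev]; omega, by simp [rev]; omega, by simpa [rev] using h3⟩
  · intro x h1 h2
    exact hout (-x) (by simp [rev] at h1 h2; omega) (by simp [rev] at h1 h2; omega)
  · simp [rev]; omega
  · simp [rev]; omega
  · intro x h1 h2 r hr ha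
    have := hmin (-x) (by simp [rev] at h1 h2; omega) (by simp [rev] at h1 h2; omega) r hr ha
    omega

end GPath

/-! ### The minor -/

theorem conn_union {A B : Set V} (hA : Conn G A) (hB : Conn G B) {z : V} (hzA : z ∈ A)
    (hzB : z ∈ B) : Conn G (A ∪ B) := by
  have key : ∀ x ∈ A ∪ B, ∃ n, Reach G (A ∪ B) n x z := by
    rintro x (hx | hx)
    · obtain ⟨n, hn⟩ := hA x hx z hzA
      exact ⟨n, hn.mono Set.subset_union_left⟩
    · obtain ⟨n, hn⟩ := hB x hx z hzB
      exact ⟨n, hn.mono Set.subset_union_right⟩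
  intro x hx y hy
  obtain ⟨n, hn⟩ := key x hx
  obtain ⟨m, hm⟩ := key y hy
  exact ⟨n + m, hn.trans (hm.symm (Or.inl hzA))⟩

theorem conn_singleton (x : V) : Conn G {x} := by
  rintro _ rfl _ rfl
  exact ⟨0, Reach.zero _⟩

/-- A component attached to three vertices of the path gives a `K₄` minor. -/
theorem k4_lemma (hG : NoK4 G) {R : Set V} (P : GPath G R) (hst : P.q P.lo ≠ P.q P.hi)
    (hin : ∀ x, P.lo < x → x < P.hi → P.q x ∈ R) {Z : Set V} (hZ : Conn G Z)
    (hZs : P.q P.lo ∈ Z) (hZt : P.q P.hi ∉ Z) (hZR : ∀ z ∈ Z, z ∉ R)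
    (hZa : ∃ z ∈ Z, G.Adj z (P.q P.hi)) {K : Set V} (hK : Conn G K) (hKR : K ⊆ R)
    (hKP : ∀ x, P.lo ≤ x → x ≤ P.hi → P.q x ∉ K) {x w y : ℤ} (hx : P.lo ≤ x) (hxw : x < w)
    (hwy : w < y) (hy : y ≤ P.hi) (h1 : ∃ r ∈ K, G.Adj r (P.q x))
    (h2 : ∃ r ∈ K, G.Adj r (P.q w)) (h3 : ∃ r ∈ K, G.Adj r (P.q y)) : False := by
  have hwR : P.q w ∈ R := hin w (by omega) (by omega)
  have hinj : ∀ a b, P.lo ≤ a → a < b → b ≤ P.hi → P.q a ≠ P.q b := by
    intro a b ha hab hb h
    by_cases h4 : P.lo < a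
    · have := P.inj_R (x := a) (y := b) (by omega) (by omega) (by omega) (by omega)
        (hin a h4 (by omega)) h
      omega
    · by_cases h5 : b < P.hi
      · have := P.inj_R (x := b) (y := a) (by omega) (by omega) (by omega) (by omega)
          (hin b (by omega) h5) h.symm
        omega
      · have e1 : a = P.lo := by omega
        have e2 : b = P.hi := by omega
        rw [e1, e2] at h
        exact hst h
  have hA2 : Conn G (Z ∪ arc P.q (P.lo - 1) w) := by
    refine conn_union hZ (conn_arc _ _ _ fun a h4 h5 => P.adj a (by omega) (by omega)) hZs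
      ⟨P.lo, by omega, by omega, rfl⟩
  have hA3 : Conn G (arc P.q w (P.hi + 1)) :=
    conn_arc _ _ _ fun a h4 h5 => P.adj a (by omega) (by omega)
  obtain ⟨r1, hr1, ha1⟩ := h1
  obtain ⟨r2, hr2, ha2⟩ := h2
  obtain ⟨r3, hr3, ha3⟩ := h3
  obtain ⟨z, hz, hza⟩ := hZa
  have d01 : Disjoint K {P.q w} := by
    rw [Set.disjoint_singleton_right]
    exact hKP w (by omega) (by omega)
  have d02 : Disjoint K (Z ∪ arc P.q (P.lo - 1) w) := by
    rw [Set.disjoint_left]
    rintro a ha (h | ⟨b, h4, h5, rfl⟩)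
    · exact hZR a h (hKR ha)
    · exact hKP b (by omega) (by omega) ha
  have d03 : Disjoint K (arc P.q w (P.hi + 1)) := by
    rw [Set.disjoint_left]
    rintro a ha ⟨b, h4, h5, rfl⟩
    exact hKP b (by omega) (by omega) ha
  have d12 : Disjoint {P.q w} (Z ∪ arc P.q (P.lo - 1) w) := by
    rw [Set.disjoint_singleton_left]
    rintro (h | ⟨b, h4, h5, h6⟩)
    · exact hZR _ h hwR
    · exact hinj b w (by omega) h5 (by omega) h6
  have d13 : Disjoint {P.q w} (arc P.q w (P.hi + 1)) := by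
    rw [Set.disjoint_singleton_left]
    rintro ⟨b, h4, h5, h6⟩
    exact hinj w b (by omega) h4 (by omega) h6.symm
  have d23 : Disjoint (Z ∪ arc P.q (P.lo - 1) w) (arc P.q w (P.hi + 1)) := by
    rw [Set.disjoint_left]
    rintro a (h | ⟨b, h4, h5, rfl⟩) ⟨b', h6, h7, h8⟩
    · by_cases h9 : b' < P.hi
      · exact hZR a h (h8 ▸ hin b' (by omega) h9)
      · have : b' = P.hi := by omega
        rw [this] at h8
        exact hZt (h8 ▸ h)
    · exact hinj b b' (by omega) (by omega) (by omega) h8.symm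
  have e01 : ∃ a ∈ K, ∃ b ∈ ({P.q w} : Set V), G.Adj a b := ⟨r2, hr2, P.q w, rfl, ha2⟩
  have e02 : ∃ a ∈ K, ∃ b ∈ Z ∪ arc P.q (P.lo - 1) w, G.Adj a b :=
    ⟨r1, hr1, P.q x, Or.inr ⟨x, by omega, by omega, rfl⟩, ha1⟩
  have e03 : ∃ a ∈ K, ∃ b ∈ arc P.q w (P.hi + 1), G.Adj a b :=
    ⟨r3, hr3, P.q y, ⟨y, by omega, by omega, rfl⟩, ha3⟩
  have e12 : ∃ a ∈ ({P.q w} : Set V), ∃ b ∈ Z ∪ arc P.q (P.lo - 1) w, G.Adj a b := by
    refine ⟨P.q w, rfl, P.q (w - 1), Or.inr ⟨w - 1, by omega, by omega, rfl⟩, ?_⟩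
    have := P.adj (w - 1) (by omega) (by omega)
    rw [sub_add_cancel] at this
    exact this.symm
  have e13 : ∃ a ∈ ({P.q w} : Set V), ∃ b ∈ arc P.q w (P.hi + 1), G.Adj a b :=
    ⟨P.q w, rfl, P.q (w + 1), ⟨w + 1, by omega, by omega, rfl⟩, P.adj w (by omega) (by omega)⟩
  have e23 : ∃ a ∈ Z ∪ arc P.q (P.lo - 1) w, ∃ b ∈ arc P.q w (P.hi + 1), G.Adj a b :=
    ⟨z, Or.inl hz, P.q P.hi, ⟨P.hi, by omega, by omega, rfl⟩, hza⟩
  have sw : ∀ {A B : Set V}, (∃ a ∈ A, ∃ b ∈ B, G.Adj a b) → ∃ a ∈ B, ∃ b ∈ A, G.Adj a b := by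
    rintro A B ⟨a, ha, b, hb, h⟩
    exact ⟨b, hb, a, ha, h.symm⟩
  refine hG ⟨![K, {P.q w}, Z ∪ arc P.q (P.lo - 1) w, arc P.q w (P.hi + 1)], ?_, ?_, ?_⟩
  · intro i
    fin_cases i
    · exact connected_of_conn hK ⟨r1, hr1⟩
    · exact connected_of_conn (conn_singleton _) ⟨_, rfl⟩
    · exact connected_of_conn hA2 ⟨_, Or.inl hZs⟩
    · exact connected_of_conn hA3 ⟨_, ⟨y, by omega, by omega, rfl⟩⟩
  · intro i j hij
    fin_cases i <;> fin_cases j
    · exact absurd rfl hij
    · exact d01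
    · exact d02
    · exact d03
    · exact d01.symm
    · exact absurd rfl hij
    · exact d12
    · exact d13
    · exact d02.symm
    · exact d12.symm
    · exact absurd rfl hij
    · exact d23
    · exact d03.symm
    · exact d13.symm
    · exact d23.symm
    · exact absurd rfl hij
  · intro i j hij
    fin_cases i <;> fin_cases j
    · exact absurd rfl hij
    · exact e01
    · exact e02
    · exact e03
    · exact sw e01
    · exact absurd rfl hij
    · exact e12
    · exact e13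
    · exact sw e02
    · exact sw e12
    · exact absurd rfl hij
    · exact e23
    · exact sw e03
    · exact sw e13
    · exact sw e23
    · exact absurd rfl hij

/-! ### The strategy -/

theorem update2_0 {α : Type*} (p q t : α) : Function.update ![p, q] 0 t = ![t, q] := by
  funext i; fin_cases i <;> rfl

theorem update2_1 {α : Type*} (p q t : α) : Function.update ![p, q] 1 t = ![p, t] := by
  funext i; fin_cases i <;> rfl

theorem sw_swap2 {R : Set V} {p q : V → V → Prop} (h : Sw G R ![q, p]) : Sw G R ![p, q] := by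
  refine Sw.perm (Equiv.swap (0 : Fin 2) 1) ?_
  have : (fun i => ![p, q] ((Equiv.swap (0 : Fin 2) 1) i)) = ![q, p] := by
    funext i; fin_cases i <;> rfl
  rw [this]
  exact h

theorem sw_mono2 {R : Set V} {p q p' q' : V → V → Prop} (h : Sw G R ![p', q'])
    (h1 : ∀ x ∈ R, ∀ c, p x c → p' x c) (h2 : ∀ x ∈ R, ∀ c, q x c → q' x c) :
    Sw G R ![p, q] := by
  refine h.mono ?_
  intro i
  fin_cases i
  · exact h1
  · exact h2

theorem cov2 {R : Set V} {p q : V → V → Prop}
    (h : ∀ x ∈ R, ∀ b, b ∉ R → G.Adj x b → Covers G p x b ∨ Covers G q x b) :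
    Cov G R ![p, q] := by
  intro x hx b hb ha
  rcases h x hx b hb ha with h | h
  · exact ⟨0, h⟩
  · exact ⟨1, h⟩

theorem near_edge {R : Set V} {s v r c : V} (hs : s ∉ R) (hsv : G.Adj s v) (hr : r ∈ R)
    (hc : c = s ∨ c = v) : near G R s r c := by
  rcases hc with rfl | rfl
  · exact ⟨0, Reach.zero _, fun n _ => Nat.zero_le n⟩
  · refine ⟨1, Reach.one (Set.mem_univ _) hsv.symm, fun n hn => ?_⟩
    cases n with
    | zero => exact absurd (hn.eq_zero ▸ hr) hs
    | succ n => omega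

/-- Two boundary vertices, joined outside of the territory. -/
structure DState (G : SimpleGraph V) (R : Set V) (s t : V) : Prop where
  conn : Conn G R
  hs : s ∉ R
  ht : t ∉ R
  ne : s ≠ t
  bd : ∀ r ∈ R, ∀ b, b ∉ R → G.Adj r b → b = s ∨ b = t
  link : ∃ Z : Set V, Conn G Z ∧ s ∈ Z ∧ t ∉ Z ∧ (∀ z ∈ Z, z ∉ R) ∧ ∃ z ∈ Z, G.Adj z t

/-- One boundary vertex. -/
structure UState (G : SimpleGraph V) (R : Set V) (s : V) : Prop where
  conn : Conn G R
  hs : s ∉ R
  bd : ∀ r ∈ R, ∀ b, b ∉ R → G.Adj r b → b = s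

/-- One boundary vertex. -/
theorem u_step (hnb : ∀ v : V, ∃ u, G.Adj v u) (hG : G.Connected) {R : Set V} {s : V}
    (S : UState G R s)
    (ih : ∀ K : Set V, K ⊆ R → K ≠ R → ∀ s t, DState G K s t →
      Sw G K ![near G K s, near G K t]) : Sw G R ![near G R s, free] := by
  classical
  by_cases hRe : R = ∅
  · intro c r hr
    rw [hRe] at hr
    exact absurd hr (Set.notMem_empty r)
  obtain ⟨r, hr⟩ := Set.nonempty_iff_ne_empty.2 hRe
  obtain ⟨v, hv, hsv⟩ : ∃ v ∈ R, G.Adj v s := by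
    obtain ⟨p⟩ := hG.preconnected r s
    obtain ⟨r', hr', b, hb, ha⟩ := exists_exit p hr S.hs
    exact ⟨r', hr', S.bd r' hr' b hb ha ▸ ha⟩
  -- cop 1 goes to the edge
  refine sw_att hnb (1 : Fin 2) (J := free) (h := edgeGuard s v) ?_ ?_ ?_ ?_
  · intro k hk
    fin_cases k
    · exact isGuard_near hnb S.hs
    · exact absurd rfl hk
  · rw [update2_1]
    refine cov2 fun r hr b hb ha => Or.inl ?_
    obtain rfl := S.bd r hr b hb ha
    exact covers_near hr ha
  · intro r hr c _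
    obtain ⟨p⟩ := hG.preconnected c s
    exact att_walk (h := edgeGuard s v) (fun r _ => Att.done (Or.inl rfl)) p r hr
  rw [update2_1]
  -- cop 0 goes to the edge
  refine sw_att hnb (0 : Fin 2) (J := free) (h := edgeGuard s v) ?_ ?_ ?_ ?_
  · intro k hk
    fin_cases k
    · exact absurd rfl hk
    · exact isGuard_edge hsv.symm R
  · rw [update2_0]
    refine cov2 fun r hr b hb ha => Or.inr ?_
    exact covers_edge hsv.symm r b (Or.inl (S.bd r hr b hb ha))
  · intro r hr c _
    obtain ⟨p⟩ := hG.preconnected c s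
    exact att_walk (h := edgeGuard s v) (fun r _ => Att.done (Or.inl rfl)) p r hr
  rw [update2_0]
  refine sw_pass (Y := {v}) hnb ?_ ?_ ?_ ?_
  · intro k
    fin_cases k
    · exact isGuard_edge hsv.symm R
    · exact isGuard_edge hsv.symm R
  · refine cov2 fun r hr b hb ha => Or.inr ?_
    exact covers_edge hsv.symm r b (Or.inl (S.bd r hr b hb ha))
  · rintro r _ _ b rfl _
    exact ⟨0, covers_edge hsv.symm r _ (Or.inr rfl)⟩
  intro r0 hr0
  have hK := comp_subset (G := G) hr0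
  have hKR : comp G (R \ {v}) r0 ⊆ R := fun x hx => (hK hx).1
  have hvK : v ∉ comp G (R \ {v}) r0 := fun h => (hK h).2 rfl
  have hsK : s ∉ comp G (R \ {v}) r0 := fun h => S.hs (hKR h)
  have D : DState G (comp G (R \ {v}) r0) s v := by
    refine ⟨conn_comp _ _, hsK, hvK, fun h => S.hs (h ▸ hv), ?_, ⟨{s}, conn_singleton _, rfl,
      fun h => S.hs (h ▸ hv), ?_, s, rfl, hsv.symm⟩⟩
    · intro r hr b hb ha
      by_cases hbR : b ∈ R
      · right
        by_contra h
        exact hb (mem_comp_of_adj hr ha ⟨hbR, h⟩)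
      · exact Or.inl (S.bd r (hKR hr) b hbR ha)
    · rintro _ rfl
      exact hsK
  have hsw := ih _ hKR (fun h => hvK (by rw [h]; exact hv)) _ _ D
  refine sw_mono2 hsw (fun x hx c hc => near_edge hsK hsv.symm hx hc) fun x hx c hc =>
    near_edge hvK hsv hx hc.symm

/-- Two boundary vertices. -/
theorem d_step (hnb : ∀ v : V, ∃ u, G.Adj v u) (hG : G.Connected) (hK4 : NoK4 G) {R : Set V}
    {s t : V} (S : DState G R s t)
    (ihU : ∀ K : Set V, K ⊆ R → ∀ s, UState G K s → Sw G K ![near G K s, free])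
    (ih : ∀ K : Set V, K ⊆ R → K ≠ R → ∀ s t, DState G K s t →
      Sw G K ![near G K s, near G K t]) : Sw G R ![near G R s, near G R t] := by
  classical
  by_cases hs' : ∃ r ∈ R, G.Adj r s
  swap
  · have U : UState G R t := by
      refine ⟨S.conn, S.ht, fun r hr b hb ha => ?_⟩
      rcases S.bd r hr b hb ha with h | h
      · exact absurd ⟨r, hr, h ▸ ha⟩ hs'
      · exact h
    exact sw_swap2 (sw_mono2 (ihU R subset_rfl t U) (fun _ _ _ h => h) fun _ _ _ _ => trivial)
  by_cases ht' : ∃ r ∈ R, G.Adj r t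
  swap
  · have U : UState G R s := by
      refine ⟨S.conn, S.hs, fun r hr b hb ha => ?_⟩
      rcases S.bd r hr b hb ha with h | h
      · exact h
      · exact absurd ⟨r, hr, h ▸ ha⟩ ht'
    exact sw_mono2 (ihU R subset_rfl s U) (fun _ _ _ h => h) fun _ _ _ _ => trivial
  obtain ⟨P, hlo, hhi, rfl, rfl, hin⟩ := exists_X S.conn S.hs S.ht S.ne hs' ht'
  have hin' : ∀ x, P.lo < x → x < P.hi → P.q x ∈ R := fun x h1 h2 => hin x (by omega) h2
  rw [← hlo] at S ⊢
  -- cop 0 takes lower mode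
  refine sw_att hnb (0 : Fin 2) (J := near G R (P.q P.lo)) (h := P.low) ?_ ?_ ?_ ?_
  · intro k hk
    fin_cases k
    · exact absurd rfl hk
    · exact isGuard_near hnb S.ht
  · rw [update2_0]
    refine cov2 fun r hr b hb ha => ?_
    rcases S.bd r hr b hb ha with rfl | rfl
    · exact Or.inl (covers_near hr ha)
    · exact Or.inr (covers_near hr ha)
  · exact fun r hr c hc => P.att_near_low r hr c hc
  rw [update2_0]
  -- cop 1 takes upper mode
  refine sw_att hnb (1 : Fin 2) (J := near G R (P.q P.hi)) (h := P.up) ?_ ?_ ?_ ?_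
  · intro k hk
    fin_cases k
    · exact P.isGuard_low
    · exact absurd rfl hk
  · rw [update2_1]
    refine cov2 fun r hr b hb ha => ?_
    rcases S.bd r hr b hb ha with rfl | rfl
    · refine Or.inl (P.covers_low hr le_rfl P.lt.le ha ?_)
      have := P.lo_lt_be hr
      omega
    · exact Or.inr (covers_near hr ha)
  · exact fun r hr c hc => P.att_near r hr c hc
  rw [update2_1]
  -- pass to a component
  have hY : ∀ y ∈ arc P.q P.lo P.hi, ∃ x, P.lo ≤ x ∧ x ≤ P.hi ∧ P.q x = y := by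
    rintro _ ⟨x, h1, h2, rfl⟩
    exact ⟨x, h1.le, h2.le, rfl⟩
  have hpair : ∀ r ∈ R, ∀ x, P.lo ≤ x → x ≤ P.hi → G.Adj r (P.q x) →
      Covers G P.low r (P.q x) ∨ Covers G P.up r (P.q x) := fun r hr x h1 h2 ha =>
    (P.covers_pair hr h1 h2 ha).symm
  refine sw_pass (Y := arc P.q P.lo P.hi) hnb ?_ ?_ ?_ ?_
  · intro k
    fin_cases k
    · exact P.isGuard_low
    · exact P.isGuard_up
  · refine cov2 fun r hr b hb ha => ?_
    rcases S.bd r hr b hb ha with rfl | rfl
    · exact hpair r hr _ le_rfl P.lt.le ha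
    · exact hpair r hr _ P.lt.le le_rfl ha
  · rintro r hr _ b ⟨x, h1, h2, rfl⟩ ha
    rcases hpair r hr x h1.le h2.le ha with h | h
    · exact ⟨0, h⟩
    · exact ⟨1, h⟩
  intro r0 hr0
  have hK := comp_subset (G := G) hr0
  set K := comp G (R \ arc P.q P.lo P.hi) r0 with hKdef
  have hKR : K ⊆ R := fun x hx => (hK hx).1
  have hKP : ∀ x, P.lo ≤ x → x ≤ P.hi → P.q x ∉ K := by
    intro x h1 h2 h3
    by_cases h4 : P.lo < x ∧ x < P.hi
    · exact (hK h3).2 ⟨x, h4.1, h4.2, rfl⟩
    · have h5 : x = P.lo ∨ x = P.hi := by omega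
      rcases h5 with rfl | rfl
      · exact S.hs (hKR h3)
      · exact S.ht (hKR h3)
  have hKne : K ≠ R := by
    intro h
    have h1 : P.q (P.lo + 1) ∈ R := hin' _ (by omega) (by omega)
    exact hKP (P.lo + 1) (by omega) (by omega) (by rw [h]; exact h1)
  have hbK : ∀ r ∈ K, ∀ b, b ∉ K → G.Adj r b → ∃ x, P.lo ≤ x ∧ x ≤ P.hi ∧ b = P.q x := by
    intro r hr b hb ha
    by_cases hbR : b ∈ R
    · by_cases hbY : b ∈ arc P.q P.lo P.hi
      · obtain ⟨x, h1, h2, h3⟩ := hY b hbY
        exact ⟨x, h1, h2, h3.symm⟩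
      · exact absurd (mem_comp_of_adj hr ha ⟨hbR, hbY⟩) hb
    · rcases S.bd r (hKR hr) b hbR ha with h | h
      · exact ⟨P.lo, le_rfl, P.lt.le, h⟩
      · exact ⟨P.hi, P.lt.le, le_rfl, h⟩
  -- lowest and highest attachment
  have hex : ∃ x, P.lo ≤ x ∧ x ≤ P.hi ∧ ∃ r ∈ K, G.Adj r (P.q x) := by
    obtain ⟨p⟩ := hG.preconnected r0 (P.q P.lo)
    obtain ⟨r', hr', b, hb, ha⟩ := exists_exit p (self_mem_comp G _ r0 : r0 ∈ K)
      (hKP P.lo le_rfl P.lt.le)
    obtain ⟨x, h1, h2, rfl⟩ := hbK r' hr' b hb ha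
    exact ⟨x, h1, h2, r', hr', ha⟩
  obtain ⟨x, ⟨hx1, hx2, hx3⟩, hxmin⟩ := Int.exists_least_of_bdd
    (P := fun x => P.lo ≤ x ∧ x ≤ P.hi ∧ ∃ r ∈ K, G.Adj r (P.q x)) ⟨P.lo, fun z h => h.1⟩ hex
  obtain ⟨y, ⟨hy1, hy2, hy3⟩, hymax⟩ := Int.exists_greatest_of_bdd
    (P := fun x => P.lo ≤ x ∧ x ≤ P.hi ∧ ∃ r ∈ K, G.Adj r (P.q x)) ⟨P.hi, fun z h => h.2.1⟩ hex
  have hlow : ∀ r ∈ K, ∀ c, P.low r c → near G K (P.q x) r c := fun r hr c hc =>
    P.near_of_low hr0 hY hKP hx1 hx2 (fun z h1 h2 r hr ha => hxmin z ⟨h1, h2, r, hr, ha⟩) hr hc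
  have hup : ∀ r ∈ K, ∀ c, P.up r c → near G K (P.q y) r c := fun r hr c hc =>
    P.near_of_up hr0 hY hKP hy1 hy2 (fun z h1 h2 r hr ha => hymax z ⟨h1, h2, r, hr, ha⟩) hr hc
  have hxy : x ≤ y := hxmin y ⟨hy1, hy2, hy3⟩
  rcases eq_or_lt_of_le hxy with hxy | hxy
  · have U : UState G K (P.q x) := by
      refine ⟨conn_comp _ _, hKP x hx1 hx2, fun r hr b hb ha => ?_⟩
      obtain ⟨z, h1, h2, rfl⟩ := hbK r hr b hb ha
      have h3 := hxmin z ⟨h1, h2, r, hr, ha⟩
      have h4 := hymax z ⟨h1, h2, r, hr, ha⟩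
      rw [show z = x by omega]
    exact sw_mono2 (ihU K hKR _ U) hlow fun _ _ _ _ => trivial
  · obtain ⟨Z, hZ, hZs, hZt, hZR, hZa⟩ := S.link
    have hne : P.q x ≠ P.q y := by
      intro h
      by_cases h1 : P.lo < x
      · have := P.inj_R hx1 hx2 hy1 hy2 (hin' x h1 (by omega)) h
        omega
      · by_cases h2 : y < P.hi
        · have := P.inj_R hy1 hy2 hx1 hx2 (hin' y (by omega) h2) h.symm
          omega
        · rw [show x = P.lo by omega, show y = P.hi by omega] at h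
          exact S.ne h
    have D : DState G K (P.q x) (P.q y) := by
      refine ⟨conn_comp _ _, hKP x hx1 hx2, hKP y hy1 hy2, hne, ?_, arc P.q (x - 1) y,
        conn_arc _ _ _ fun a h1 h2 => P.adj a (by omega) (by omega), ⟨x, by omega, hxy, rfl⟩,
        ?_, ?_, P.q (y - 1), ⟨y - 1, by omega, by omega, rfl⟩, ?_⟩
      · intro r hr b hb ha
        obtain ⟨z, h1, h2, rfl⟩ := hbK r hr b hb ha
        have h3 := hxmin z ⟨h1, h2, r, hr, ha⟩
        have h4 := hymax z ⟨h1, h2, r, hr, ha⟩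
        by_contra h5
        push Not at h5
        have h6 : z ≠ x := fun h => h5.1 (h ▸ rfl)
        have h7 : z ≠ y := fun h => h5.2 (h ▸ rfl)
        exact k4_lemma hK4 P S.ne hin' hZ hZs hZt hZR hZa (conn_comp _ _) hKR hKP hx1
          (w := z) (by omega) (by omega) hy2 hx3 ⟨r, hr, ha⟩ hy3
      · rintro ⟨z, h1, h2, h3⟩
        by_cases h4 : P.lo < z
        · have := P.inj_R (x := z) (y := y) (by omega) (by omega) hy1 hy2
            (hin' z h4 (by omega)) h3
          omega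
        · have h5 : z = x := by omega
          exact hne (h5 ▸ h3)
      · rintro _ ⟨z, h1, h2, rfl⟩
        exact hKP z (by omega) (by omega)
      · have := P.adj (y - 1) (by omega) (by omega)
        rwa [sub_add_cancel] at this
    exact sw_mono2 (ih K hKR hKne _ _ D) hlow hup

/-- The states are winning. -/
theorem sp_states [Finite V] (hnb : ∀ v : V, ∃ u, G.Adj v u) (hG : G.Connected)
    (hK4 : NoK4 G) (n : ℕ) : ∀ R : Set V, R.ncard ≤ n →
    (∀ s, UState G R s → Sw G R ![near G R s, free]) ∧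
    (∀ s t, DState G R s t → Sw G R ![near G R s, near G R t]) := by
  induction n with
  | zero =>
    intro R hR
    have hRe : R = ∅ := by
      rw [← Set.ncard_eq_zero (Set.toFinite R)]; omega
    constructor
    · intro s _ c r hr
      rw [hRe] at hr
      exact absurd hr (Set.notMem_empty r)
    · intro s t _ c r hr
      rw [hRe] at hr
      exact absurd hr (Set.notMem_empty r)
  | succ n ih =>
    intro R hR
    have hlt : ∀ K : Set V, K ⊆ R → K ≠ R → K.ncard ≤ n := by
      intro K h1 h2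
      have := Set.ncard_lt_ncard (lt_of_le_of_ne h1 h2) (Set.toFinite R)
      omega
    have hU : ∀ s, UState G R s → Sw G R ![near G R s, free] := fun s S =>
      u_step hnb hG S fun K h1 h2 => (ih K (hlt K h1 h2)).2
    refine ⟨hU, fun s t S => d_step hnb hG hK4 S ?_ fun K h1 h2 => (ih K (hlt K h1 h2)).2⟩
    intro K h1
    by_cases h2 : K = R
    · rw [h2]; exact hU
    · exact (ih K (hlt K h1 h2)).1

/-- Two fully active cops win on every connected graph without `K₄` minor. -/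
theorem coreSP [Fintype V] (hG : G.Connected) (hcard : 2 ≤ Fintype.card V) (hK4 : NoK4 G) :
    CopsWin G 2 := by
  have hnt : Nontrivial V := Fintype.one_lt_card_iff_nontrivial.1 (by omega)
  have hnb : ∀ v : V, ∃ u, G.Adj v u := fun v => hG.preconnected.exists_adj_of_nontrivial v
  obtain ⟨u⟩ : Nonempty V := hG.nonempty
  obtain ⟨v, huv⟩ := hnb u
  refine copsWin_of_rwin hnb ![u, u] fun r => ?_
  by_cases hru : r = u
  · exact Or.inl ⟨0, hru.symm⟩
  refine Or.inr ⟨![v, v], ?_, ?_⟩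
  · intro i
    fin_cases i
    · exact huv
    · exact huv
  by_cases hrv : r = v
  · exact RWin.capture 0 hrv.symm
  have hr0 : r ∈ (Set.univ \ {u, v} : Set V) := ⟨Set.mem_univ _, by simp [hru, hrv]⟩
  have hK := comp_subset (G := G) hr0
  have huK : u ∉ comp G (Set.univ \ {u, v}) r := fun h => (hK h).2 (by simp)
  have hvK : v ∉ comp G (Set.univ \ {u, v}) r := fun h => (hK h).2 (by simp)
  have D : DState G (comp G (Set.univ \ {u, v}) r) u v := by
    refine ⟨conn_comp _ _, huK, hvK, huv.ne, ?_, {u}, conn_singleton _, rfl,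
      fun h => huv.ne h.symm, ?_, u, rfl, huv⟩
    · intro x hx b hb ha
      by_contra h
      push Not at h
      exact hb (mem_comp_of_adj hx ha ⟨Set.mem_univ _, by simp [h.1, h.2]⟩)
    · rintro _ rfl
      exact huK
  have hsw := (sp_states hnb hG hK4 _ _ le_rfl).2 u v D
  refine hsw _ r (self_mem_comp _ _ _) fun i => ?_
  fin_cases i
  · exact near_edge huK huv (self_mem_comp _ _ _) (Or.inr rfl)
  · exact near_edge hvK huv.symm (self_mem_comp _ _ _) (Or.inl rfl)

end Pool.Agent.Lib.MP9d0a1e
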