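import Pool.Agent.Lib.MP_9d0a1e_co.Bip.SP

/-!
# The fully active cop number is at most the treewidth
-/

namespace Pool.Agent.Lib.MP9d0a1e

universe u

variable {V : Type u} {G : SimpleGraph V}

/-- `G` has a tree decomposition of width at most `k`: a finite tree `T` and a bag of at most
`k + 1` vertices for every node, such that the ends of every edge lie in a common bag and the
nodes whose bags contain a given vertex induce a connected (nonempty) subgraph of `T`. -/
def HasTreeDecomp {V : Type u} (G : SimpleGraph V) (k : ℕ) : Prop :=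
  ∃ (m : ℕ) (T : SimpleGraph (Fin m)) (bag : Fin m → Finset V), T.IsTree ∧
    (∀ t, (bag t).card ≤ k + 1) ∧
    (∀ u v, G.Adj u v → ∃ t, u ∈ bag t ∧ v ∈ bag t) ∧
    ∀ v, (T.induce {t | v ∈ bag t}).Connected

/-! ### Trees -/

theorem conn_of_induce {S : Set V} (h : (G.induce S).Preconnected) : Conn G S := by
  have key : ∀ (a b : S), (G.induce S).Walk a b → ∃ n, Reach G S n a.1 b.1 := by
    intro a b p
    induction p with
    | nil => exact ⟨0, Reach.zero _⟩
    | @cons a b c hab _ ih =>
      obtain ⟨n, hn⟩ := ih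
      exact ⟨n + 1, Reach.step a.2 hab hn⟩
  intro x hx y hy
  obtain ⟨p⟩ := h ⟨x, hx⟩ ⟨y, hy⟩
  exact key _ _ p

/-- Two neighbours of a vertex of a forest which are joined by a walk avoiding the vertex are
equal. -/
theorem tree_unique {W : Type*} {T : SimpleGraph W} (hT : T.IsAcyclic) {S : Set W} {t a b : W}
    (ha : T.Adj t a) (hb : T.Adj t b) (hS : t ∉ S) {n : ℕ} (h : Reach T S n a b) : a = b := by
  by_contra hab
  have hbr := SimpleGraph.isAcyclic_iff_forall_adj_isBridge.1 hT hb
  rw [SimpleGraph.isBridge_iff] at hbr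
  apply hbr
  have key : ∀ (n : ℕ) (x y : W), Reach T S n x y → y ≠ t → x ≠ t →
      (T.deleteEdges {s(t, b)}).Reachable x y := by
    intro n x y h hy
    induction h with
    | zero v => intro _; exact SimpleGraph.Reachable.refl _
    | @step n r r' v hr hrr' h ih =>
      intro hrt
      have hr't : r' ≠ t := by
        cases n with
        | zero => rw [h.eq_zero]; exact hy
        | succ n => exact fun h' => hS (h' ▸ h.start_mem)
      have h1 : (T.deleteEdges {s(t, b)}).Adj r r' := by
        rw [SimpleGraph.deleteEdges_adj]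
        refine ⟨hrr', fun h' => ?_⟩
        have h2 : s(r, r') = s(t, b) := h'
        rw [Sym2.eq_iff] at h2
        rcases h2 with h2 | h2
        · exact hrt h2.1
        · exact hr't h2.2
      exact h1.reachable.trans (ih hy hr't)
  have h1 : (T.deleteEdges {s(t, b)}).Adj t a := by
    rw [SimpleGraph.deleteEdges_adj]
    refine ⟨ha, fun h' => ?_⟩
    have h2 : s(t, a) = s(t, b) := h'
    rw [Sym2.eq_iff] at h2
    rcases h2 with h2 | h2
    · exact hab h2.2
    · exact hb.ne h2.1
  exact h1.reachable.trans (key n a b h hb.ne' ha.ne')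

theorem reach_avoid_or {W : Type*} {T : SimpleGraph W} {d : ℕ} {x s : W} (t : W)
    (h : Reach T Set.univ d x s) :
    Reach T {t}ᶜ d x s ∨ ∃ d' ≤ d, Reach T Set.univ d' t s := by
  induction h with
  | zero v => exact Or.inl (Reach.zero v)
  | @step n r r' v hr hrr' h ih =>
    by_cases hrt : r = t
    · subst hrt
      exact Or.inr ⟨n + 1, le_rfl, Reach.step hr hrr' h⟩
    · rcases ih with h1 | ⟨d', h1, h2⟩
      · exact Or.inl (Reach.step hrt hrr' h1)
      · exact Or.inr ⟨d', by omega, h2⟩

theorem reach_last_visit {W : Type*} {T : SimpleGraph W} {S : Set W} {m : ℕ} {x s : W} (t : W)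
    (h : Reach T S m x s) (hs : s ∈ S) :
    Reach T (S \ {t}) m x s ∨ ∃ t' ∈ S, T.Adj t t' ∧ ∃ m', Reach T (S \ {t}) m' t' s := by
  induction h with
  | zero v => exact Or.inl (Reach.zero v)
  | @step n r r' v hr hrr' h ih =>
    rcases ih hs with h1 | h1
    · have hr' : r' ∈ S := by
        cases n with
        | zero => rw [h1.eq_zero]; exact hs
        | succ n => exact h1.start_mem.1
      by_cases hrt : r = t
      · subst hrt
        exact Or.inr ⟨r', hr', hrr', n, h1⟩
      · exact Or.inl (Reach.step ⟨hr, hrt⟩ hrr' h1)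
    · exact Or.inr h1

/-! ### Territories and bags -/

/-- The boundary of a set. -/
def Nb (G : SimpleGraph V) (K : Set V) : Set V := {b | b ∉ K ∧ ∃ r ∈ K, G.Adj r b}

/-- The Helly type property of the bags: a bag containing the boundary of a connected set `K` can
be replaced by one which moreover meets `K`. -/
def BagHelly (G : SimpleGraph V) (Bag : Set V → Prop) : Prop :=
  ∀ K : Set V, Conn G K → K.Nonempty → (∃ S, Bag S ∧ Nb G K ⊆ S) →
    ∃ S, Bag S ∧ Nb G K ⊆ S ∧ (K ∩ S).Nonempty

theorem bagHelly_of_tree {m : ℕ} {T : SimpleGraph (Fin m)} {bag : Fin m → Finset V}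
    (hT : T.IsTree) (hedge : ∀ u v, G.Adj u v → ∃ t, u ∈ bag t ∧ v ∈ bag t)
    (hconn : ∀ v, (T.induce {t | v ∈ bag t}).Connected) :
    BagHelly G fun S => ∃ t, S = (bag t : Set V) := by
  rintro K hK ⟨x0, hx0⟩ ⟨_, ⟨t, rfl⟩, ht⟩
  have hTv : ∀ v, Conn T {t | v ∈ bag t} := fun v => conn_of_induce (hconn v).preconnected
  set A : Set (Fin m) := {s | ∃ x ∈ K, x ∈ bag s} with hA
  have hsub : ∀ x ∈ K, {t | x ∈ bag t} ⊆ A := fun x hx s hs => ⟨x, hx, hs⟩
  -- `A` is connected
  have hAc : Conn T A := by
    have key : ∀ (n : ℕ) (x y : V), Reach G K n x y → y ∈ K → ∀ s s', x ∈ bag s → y ∈ bag s' →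
        ∃ m, Reach T A m s s' := by
      intro n x y h hy
      induction h with
      | zero v =>
        intro s s' hs hs'
        obtain ⟨m, hm⟩ := hTv v s hs s' hs'
        exact ⟨m, hm.mono (hsub v hy)⟩
      | @step n r r' v hr hrr' h ih =>
        intro s s' hs hs'
        obtain ⟨s0, h0, h0'⟩ := hedge r r' hrr'
        obtain ⟨m1, hm1⟩ := hTv r s hs s0 h0
        obtain ⟨m2, hm2⟩ := ih hy s0 s' h0' hs'
        exact ⟨m1 + m2, (hm1.mono (hsub r hr)).trans hm2⟩
    rintro s ⟨x, hx, hxs⟩ s' ⟨y, hy, hys⟩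
    obtain ⟨n, hn⟩ := hK x hx y hy
    exact key n x y hn hy s s' hxs hys
  have main : ∀ (d : ℕ) (t : Fin m), Nb G K ⊆ bag t → (∃ s ∈ A, Reach T Set.univ d t s) →
      ∃ t, Nb G K ⊆ bag t ∧ (K ∩ bag t).Nonempty := by
    intro d
    induction d using Nat.strong_induction_on with
    | _ d ih =>
      rintro t ht ⟨s, hs, hds⟩
      by_cases htA : t ∈ A
      · obtain ⟨x, hx, hxt⟩ := htA
        exact ⟨t, ht, x, hx, hxt⟩
      cases hds with
      | zero => exact absurd hs htA
      | @step d _ t1 _ _ htt1 h =>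
        rcases reach_avoid_or t h with h1 | ⟨d', h1, h2⟩
        swap
        · exact ih d' (by omega) t ht ⟨s, hs, h2⟩
        refine ih d (by omega) t1 ?_ ⟨s, hs, h⟩
        intro v hv
        obtain ⟨hvK, r, hr, hrv⟩ := hv
        obtain ⟨s', hs'1, hs'2⟩ := hedge r v hrv
        have hs'A : s' ∈ A := ⟨r, hr, hs'1⟩
        have hvt : v ∈ bag t := ht ⟨hvK, r, hr, hrv⟩
        obtain ⟨n, hn⟩ := hTv v t hvt s' hs'2
        rcases reach_last_visit t hn hs'2 with h2 | ⟨t', ht', htt', n', h2⟩
        · exfalso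
          cases n with
          | zero => exact htA (h2.eq_zero ▸ hs'A)
          | succ n => exact h2.start_mem.2 rfl
        · obtain ⟨n2, hn2⟩ := hAc s hs s' hs'A
          have ht't : t' ≠ t := htt'.ne'
          have e1 : Reach T {t}ᶜ n2 s s' := hn2.mono fun a ha (h3 : a = t) => htA (h3 ▸ ha)
          have hs't : s' ∈ ({t}ᶜ : Set (Fin m)) := fun (h3 : s' = t) => htA (h3 ▸ hs'A)
          have e2 : Reach T {t}ᶜ n' s' t' :=
            (h2.mono fun a ha => ha.2 : Reach T {t}ᶜ n' t' s').symm hs't
          have e3 := tree_unique hT.isAcyclic htt1 htt' (S := {t}ᶜ) (by simp)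
            ((h1.trans e1).trans e2)
          rw [e3]
          exact ht'
  obtain ⟨s, hs⟩ : ∃ s, s ∈ A := by
    obtain ⟨⟨s, hs⟩⟩ := (hconn x0).nonempty
    exact ⟨s, x0, hx0, hs⟩
  have huniv : Conn T Set.univ := by
    have key : ∀ (a b : Fin m), T.Walk a b → ∃ n, Reach T Set.univ n a b := by
      intro a b p
      induction p with
      | nil => exact ⟨0, Reach.zero _⟩
      | @cons a b c hab _ ih =>
        obtain ⟨n, hn⟩ := ih
        exact ⟨n + 1, Reach.step (Set.mem_univ _) hab hn⟩
    intro x _ y _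
    obtain ⟨p⟩ := hT.connected.preconnected x y
    exact key _ _ p
  obtain ⟨d, hd⟩ := huniv t (Set.mem_univ _) s (Set.mem_univ _)
  obtain ⟨t', h1, h2⟩ := main d t ht ⟨s, hs, hd⟩
  exact ⟨_, ⟨t', rfl⟩, h1, h2⟩

/-! ### Walking to a vertex of the territory while guarding a boundary vertex -/

/-- A shortest walk from a boundary vertex `s` to a vertex `w` of the territory. -/
structure Leash (G : SimpleGraph V) (K : Set V) (s w : V) (D : ℕ) (q : ℕ → V) : Prop where
  q0 : q 0 = s
  qD : q D = w
  adj : ∀ p < D, G.Adj (q p) (q (p + 1))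
  pos : 1 ≤ D
  least : ∀ n, Reach G K n w s → D ≤ n

theorem exists_leash {K : Set V} {s w : V} (hw : w ∈ K) (hs : s ∉ K)
    (hex : ∃ n, Reach G K n w s) : ∃ D q, Leash G K s w D q := by
  classical
  have h1 := Nat.find_spec hex
  obtain ⟨f, f0, fn, hf⟩ := h1.exists_fun
  refine ⟨Nat.find hex, fun p => f (Nat.find hex - p), ?_, ?_, ?_, ?_, ?_⟩
  · simpa using fn
  · simpa using f0
  · intro p hp
    have h2 := (hf (Nat.find hex - (p + 1)) (by omega)).2
    rw [show Nat.find hex - (p + 1) + 1 = Nat.find hex - p by omega] at h2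
    exact h2.symm
  · by_contra h
    have h2 : Nat.find hex = 0 := by omega
    rw [h2] at h1
    exact hs (h1.eq_zero ▸ hw)
  · intro n hn
    exact Nat.find_min' hex hn

/-- The distance to `s` through the territory. -/
noncomputable def dK (G : SimpleGraph V) (K : Set V) (s r : V) : ℕ :=
  sInf {n | Reach G K n r s}

theorem dK_le {K : Set V} {s r : V} {n : ℕ} (h : Reach G K n r s) : dK G K s r ≤ n :=
  Nat.sInf_le h

theorem dK_spec {K : Set V} {s r : V} (h : ∃ n, Reach G K n r s) :
    Reach G K (dK G K s r) r s := Nat.sInf_mem h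

theorem dK_pos {K : Set V} {s r : V} (hr : r ∈ K) (hs : s ∉ K) (h : ∃ n, Reach G K n r s) :
    1 ≤ dK G K s r := by
  by_contra h1
  have h2 : dK G K s r = 0 := by omega
  have h3 := dK_spec h
  rw [h2] at h3
  exact hs (h3.eq_zero ▸ hr)

theorem dK_lip {K : Set V} {s r r' : V} (hr : r ∈ K) (ha : G.Adj r r')
    (h : ∃ n, Reach G K n r' s) : dK G K s r ≤ dK G K s r' + 1 :=
  dK_le (Reach.step hr ha (dK_spec h))

/-- The cop walks on the leash, as far from `s` as she can. -/
def walks (G : SimpleGraph V) (K : Set V) (s : V) (D : ℕ) (q : ℕ → V) : V → V → Prop := fun r c =>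
  ∃ p, c = q p ∧ (p = min D (dK G K s r) ∨ p + 1 = min D (dK G K s r))

section leash

variable {K : Set V} {s w : V} {D : ℕ} {q : ℕ → V}

theorem Leash.reach (L : Leash G K s w D q) : ∀ p ≤ D, Reach G Set.univ p (q p) s := by
  intro p
  induction p with
  | zero => intro _; rw [L.q0]; exact Reach.zero _
  | succ p ih =>
    intro hp
    exact Reach.step (Set.mem_univ _) (L.adj p (by omega)).symm (ih (by omega))

theorem Leash.isGuard (L : Leash G K s w D q) (hs : s ∉ K)
    (hex : ∀ r ∈ K, ∃ n, Reach G K n r s) : IsGuard G K (walks G K s D q) := by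
  rintro r hr r' hr' ha c ⟨p, rfl, hp⟩
  have h1 := dK_pos hr hs (hex r hr)
  have h2 := dK_pos hr' hs (hex r' hr')
  have h3 := dK_lip hr ha (hex r' hr')
  have h4 := dK_lip hr' ha.symm (hex r hr)
  have h5 := L.pos
  by_cases h : p + 1 ≤ D ∧ (p + 1 = min D (dK G K s r') ∨ p + 1 + 1 = min D (dK G K s r'))
  · exact ⟨q (p + 1), L.adj p (by omega), p + 1, rfl, h.2⟩
  · refine ⟨q (p - 1), ?_, p - 1, rfl, by omega⟩
    have := L.adj (p - 1) (by omega)
    rw [show p - 1 + 1 = p by omega] at this
    exact this.symm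

theorem Leash.near_of_walks (L : Leash G K s w D q) {r c : V} (hc : walks G K s D q r c) :
    near G K s r c := by
  obtain ⟨p, rfl, hp⟩ := hc
  refine ⟨p, L.reach p (by omega), fun n hn => ?_⟩
  have := dK_le hn
  omega

theorem Leash.att_climb (L : Leash G K s w D q) (hex : ∀ r ∈ K, ∃ n, Reach G K n r s) (k : ℕ) :
    ∀ r ∈ K, ∀ p, p ≤ D → D - p ≤ k → p ≤ dK G K s r →
      Att G K (near G K s) (walks G K s D q) r (q p) := by
  induction k with
  | zero =>
    intro r _ p h1 h2 h3
    exact Att.done ⟨p, rfl, by omega⟩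
  | succ k ih =>
    intro r hr p h1 h2 h3
    by_cases h4 : p = min D (dK G K s r) ∨ p + 1 = min D (dK G K s r)
    · exact Att.done ⟨p, rfl, h4⟩
    · refine Att.step' ⟨p, L.reach p h1, fun n hn => ?_⟩ fun r' hr' ha => ?_
      · have := dK_le hn
        omega
      · have h5 := dK_lip hr ha (hex r' hr')
        exact ⟨q (p + 1), L.adj p (by omega), ih r' hr' (p + 1) (by omega) (by omega) (by omega)⟩

theorem Leash.att (L : Leash G K s w D q) (hex : ∀ r ∈ K, ∃ n, Reach G K n r s) :
    ∀ r ∈ K, ∀ c, near G K s r c → Att G K (near G K s) (walks G K s D q) r c := by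
  have key : ∀ (m : ℕ) (r c : V), r ∈ K → Reach G Set.univ m c s →
      (∀ n, Reach G K n r s → m ≤ n) → Att G K (near G K s) (walks G K s D q) r c := by
    intro m
    induction m with
    | zero =>
      intro r c hr h _
      have h0 := L.att_climb hex D r hr 0 (Nat.zero_le _) (by omega) (Nat.zero_le _)
      rw [L.q0] at h0
      rw [h.eq_zero]
      exact h0
    | succ m ih =>
      intro r c hr h hmin
      refine Att.step' ⟨_, h, hmin⟩ fun r' hr' ha => ?_
      cases h with
      | @step _ _ c' _ _ hc h =>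
        refine ⟨c', hc, ih r' c' hr' h fun n hn => ?_⟩
        have := hmin (n + 1) (Reach.step hr ha hn)
        omega
  rintro r hr c ⟨m, hm, hmin⟩
  exact key m r c hr hm hmin

/-- If the component `K'` of `K - w` is not attached to `s`, the cop guards `w`. -/
theorem Leash.near_w (L : Leash G K s w D q) {r0 r c : V} (hw : w ∈ K) (hs : s ∉ K)
    (hr0 : r0 ∈ K \ {w}) (hsN : s ∉ Nb G (comp G (K \ {w}) r0))
    (hr : r ∈ comp G (K \ {w}) r0) (hex : ∃ n, Reach G K n r s)
    (hc : walks G K s D q r c) : near G (comp G (K \ {w}) r0) w r c := by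
  have hK' := comp_subset (G := G) hr0
  have hwK : w ∉ comp G (K \ {w}) r0 := fun h => (hK' h).2 rfl
  have hsK : s ∉ comp G (K \ {w}) r0 := fun h => hs (hK' h).1
  have h1 : D ≤ dK G K s r := by
    rcases (dK_spec hex).first hr with h | ⟨y, rfl, _, n1, n2, h2, _, h3⟩
    · obtain ⟨u, hu, hua⟩ := h.last (fun h => hsK (h ▸ hr))
      exact absurd ⟨hsK, u, hu, hua⟩ hsN
    · have := L.least _ h3
      omega
  obtain ⟨p, rfl, hp⟩ := hc
  have h2 := L.pos
  have h3 : p = D ∨ p + 1 = D := by omega
  rcases h3 with rfl | h3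
  · rw [L.qD]
    exact ⟨0, Reach.zero _, fun n _ => Nat.zero_le n⟩
  · have h4 := L.adj p (by omega)
    rw [h3, L.qD] at h4
    refine ⟨1, Reach.one (Set.mem_univ _) h4, fun n hn => ?_⟩
    cases n with
    | zero => exact absurd (hn.eq_zero ▸ hr) hwK
    | succ n => omega

end leash

theorem near_mono {K K' : Set V} (h : K' ⊆ K) {s r c : V} (hc : near G K s r c) :
    near G K' s r c := by
  obtain ⟨m, h1, h2⟩ := hc
  exact ⟨m, h1, fun n hn => h2 n (hn.mono h)⟩

/-! ### The strategy -/

/-- The boundary of the territory is assigned to the cops. -/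
structure FState (G : SimpleGraph V) {k : ℕ} (K : Set V) (f : Fin k → V) : Prop where
  conn : Conn G K
  out : ∀ i, f i ∉ K
  bd : ∀ b ∈ Nb G K, ∃ i, f i = b

theorem nb_comp {K : Set V} {w r0 b : V} (hr0 : r0 ∈ K \ {w})
    (hb : b ∈ Nb G (comp G (K \ {w}) r0)) : b = w ∨ b ∈ Nb G K := by
  obtain ⟨h1, r, h2, h3⟩ := hb
  by_cases hbK : b ∈ K
  · left
    by_contra h4
    exact h1 (mem_comp_of_adj h2 h3 ⟨hbK, h4⟩)
  · exact Or.inr ⟨hbK, r, (comp_subset hr0 h2).1, h3⟩

theorem f_step [Finite V] (hnb : ∀ v : V, ∃ u, G.Adj v u) (hG : G.Connected) {k : ℕ}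
    {Bag : Set V → Prop} (hBag : ∀ S, Bag S → S.ncard ≤ k + 1) (hH : BagHelly G Bag)
    {K : Set V} {f : Fin k → V} (S : FState G K f) (hS : ∃ S, Bag S ∧ Nb G K ⊆ S)
    (ih : ∀ K' : Set V, K' ⊆ K → K' ≠ K → ∀ f' : Fin k → V, FState G K' f' →
      (∃ S, Bag S ∧ Nb G K' ⊆ S) → Sw G K' fun i => near G K' (f' i)) :
    Sw G K fun i => near G K (f i) := by
  classical
  by_cases hKe : K = ∅
  · intro c r hr
    rw [hKe] at hr
    exact absurd hr (Set.notMem_empty r)
  obtain ⟨B, hB, hNB, w, hwK, hwB⟩ := hH K S.conn (Set.nonempty_iff_ne_empty.2 hKe) hS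
  -- every component of `K - w` is a smaller territory
  have hsub : ∀ r0 ∈ K \ {w}, Nb G (comp G (K \ {w}) r0) ⊆ B := by
    intro r0 hr0 b hb
    rcases nb_comp hr0 hb with rfl | h
    · exact hwB
    · exact hNB h
  have hcov : ∀ (g : Fin k → V → V → Prop) (P : Fin k → Prop),
      (∀ i, P i → ∀ r ∈ K, ∀ c, g i r c → near G K (f i) r c) →
      (∀ b ∈ Nb G K, ∃ i, P i ∧ f i = b) → Cov G K g := by
    intro g P h1 h2 r hr b hb ha
    obtain ⟨i, hi, rfl⟩ := h2 b ⟨hb, r, hr, ha⟩
    exact ⟨i, fun c hc => covers_near hr ha c (h1 i hi r hr c hc)⟩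
  by_cases hA : ∃ j, ∀ b ∈ Nb G K, ∃ i, i ≠ j ∧ f i = b
  · -- cop `j` is free
    obtain ⟨j, hj⟩ := hA
    obtain ⟨u, hwu⟩ := hnb w
    refine sw_att hnb j (J := free) (h := edgeGuard w u) ?_ ?_ ?_ ?_
    · intro i _
      exact isGuard_near hnb (S.out i)
    · refine hcov _ (fun i => i ≠ j) ?_ hj
      intro i hi r _ c hc
      rwa [Function.update_of_ne hi] at hc
    · intro r hr c _
      obtain ⟨p⟩ := hG.preconnected c w
      exact att_walk (h := edgeGuard w u) (fun r _ => Att.done (Or.inl rfl)) p r hr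
    refine sw_pass (Y := {w}) hnb ?_ ?_ ?_ ?_
    · intro i
      by_cases hi : i = j
      · subst hi
        simpa using isGuard_edge hwu K
      · simpa [Function.update_of_ne hi] using isGuard_near hnb (S.out i)
    · refine hcov _ (fun i => i ≠ j) ?_ hj
      intro i hi r _ c hc
      rwa [Function.update_of_ne hi] at hc
    · rintro r _ rfl b rfl ha
      exact absurd ha (G.loopless.irrefl _)
    intro r0 hr0
    have hK' := comp_subset (G := G) hr0
    have hKK : comp G (K \ {w}) r0 ⊆ K := fun x hx => (hK' hx).1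
    have hwK' : w ∉ comp G (K \ {w}) r0 := fun h => (hK' h).2 rfl
    have F : FState G (comp G (K \ {w}) r0) (Function.update f j w) := by
      refine ⟨conn_comp _ _, fun i => ?_, fun b hb => ?_⟩
      · by_cases hi : i = j
        · subst hi; simpa using hwK'
        · rw [Function.update_of_ne hi]
          exact fun h => S.out i (hKK h)
      · rcases nb_comp hr0 hb with rfl | h
        · exact ⟨j, by simp⟩
        · obtain ⟨i, hi, rfl⟩ := hj b h
          exact ⟨i, by rw [Function.update_of_ne hi]⟩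
    refine (ih _ hKK (fun h => hwK' (by rw [h]; exact hwK)) _ F ⟨B, hB, hsub r0 hr0⟩).mono ?_
    intro i r hr c hc
    by_cases hi : i = j
    · subst hi
      simp only [Function.update_self] at hc ⊢
      exact near_edge hwK' hwu hr hc
    · rw [Function.update_of_ne hi] at hc ⊢
      exact near_mono hKK hc
  · -- all cops walk to `w`
    push Not at hA
    have hfN : ∀ j, f j ∈ Nb G K := by
      intro j
      obtain ⟨b, hb, hb'⟩ := hA j
      obtain ⟨i, hi⟩ := S.bd b hb
      by_cases hij : i = j
      · rw [← hij, hi]; exact hb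
      · exact absurd hi (hb' i hij)
    have hinj : Function.Injective f := by
      intro i j hij
      by_contra hne
      obtain ⟨b, hb, hb'⟩ := hA j
      obtain ⟨l, hl⟩ := S.bd b hb
      by_cases hlj : l = j
      · exact hb' i hne (by rw [hij, ← hlj, hl])
      · exact hb' l hlj hl
    have hex : ∀ i, ∀ r ∈ K, ∃ n, Reach G K n r (f i) := by
      intro i r hr
      obtain ⟨_, x, hx, hxf⟩ := hfN i
      obtain ⟨n, hn⟩ := S.conn r hr x hx
      exact ⟨n + 1, hn.snoc hx hxf⟩
    have hL : ∀ i, ∃ D q, Leash G K (f i) w D q := fun i =>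
      exists_leash hwK (S.out i) (hex i w hwK)
    choose D q L using hL
    -- all cops walk on their leashes
    have hwalk : ∀ (T : Finset (Fin k)),
        (Sw G K fun i => if i ∈ T then walks G K (f i) (D i) (q i) else near G K (f i)) →
        Sw G K fun i => near G K (f i) := by
      intro T
      induction T using Finset.induction_on with
      | empty => intro h; simpa using h
      | insert j T hj ihT =>
        intro h
        apply ihT
        refine sw_att hnb j (J := near G K (f j)) (h := walks G K (f j) (D j) (q j)) ?_ ?_ ?_ ?_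
        · intro i _
          by_cases hi : i ∈ T
          · simpa [hi] using (L i).isGuard (S.out i) (hex i)
          · simpa [hi] using isGuard_near hnb (S.out i)
        · refine hcov _ (fun _ => True) ?_ fun b hb => ?_
          · intro i _ r _ c hc
            by_cases hij : i = j
            · subst hij; simpa using hc
            · rw [Function.update_of_ne hij] at hc
              by_cases hi : i ∈ T
              · simp only [hi, if_true] at hc
                exact (L i).near_of_walks hc
              · simpa [hi] using hc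
          · obtain ⟨i, hi⟩ := S.bd b hb
            exact ⟨i, trivial, hi⟩
        · intro r hr c hc
          simp only [hj, if_false] at hc
          exact (L j).att (hex j) r hr c hc
        · convert h using 1
          funext i
          by_cases hij : i = j
          · subst hij; simp
          · simp [Function.update_of_ne hij, hij]
    refine hwalk Finset.univ ?_
    simp only [Finset.mem_univ, if_true]
    refine sw_pass (Y := {w}) hnb ?_ ?_ ?_ ?_
    · exact fun i => (L i).isGuard (S.out i) (hex i)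
    · refine hcov _ (fun _ => True) (fun i _ r _ c hc => (L i).near_of_walks hc) fun b hb => ?_
      obtain ⟨i, hi⟩ := S.bd b hb
      exact ⟨i, trivial, hi⟩
    · rintro r _ rfl b rfl ha
      exact absurd ha (G.loopless.irrefl _)
    intro r0 hr0
    have hK' := comp_subset (G := G) hr0
    set K' := comp G (K \ {w}) r0 with hK'def
    have hKK : K' ⊆ K := fun x hx => (hK' hx).1
    have hwK' : w ∉ K' := fun h => (hK' h).2 rfl
    -- `w` is in the boundary
    have hwN : w ∈ Nb G K' := by
      obtain ⟨n, hn⟩ := S.conn r0 hr0.1 w hwK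
      have hne : r0 ≠ w := hr0.2
      rcases hn.first (self_mem_comp G (K \ {w}) r0) with h | ⟨y, rfl, _, n1, n2, _, h, _⟩
      · obtain ⟨u, hu, hua⟩ := h.last hne
        exact ⟨hwK', u, hu, hua⟩
      · obtain ⟨u, hu, hua⟩ := h.last hne
        exact ⟨hwK', u, hu, hua⟩
    -- some cop is not needed
    obtain ⟨i, hi⟩ : ∃ i, f i ∉ Nb G K' := by
      by_contra hall
      push Not at hall
      obtain ⟨B', hB', hNB', x, hx, hxB'⟩ := hH K' (conn_comp _ _) ⟨r0, self_mem_comp _ _ _⟩
        ⟨B, hB, hsub r0 hr0⟩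
      have h1 : insert x (insert w (Set.range f)) ⊆ B' := by
        rintro y (rfl | rfl | ⟨i, rfl⟩)
        · exact hxB'
        · exact hNB' hwN
        · exact hNB' (hall i)
      have h2 : x ∉ insert w (Set.range f) := by
        rintro (rfl | ⟨i, rfl⟩)
        · exact hwK' hx
        · exact S.out i (hKK hx)
      have h3 : w ∉ Set.range f := by
        rintro ⟨i, rfl⟩
        exact S.out i hwK
      have h4 := Set.ncard_le_ncard h1 (Set.toFinite B')
      rw [Set.ncard_insert_of_notMem h2 (Set.toFinite _),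
        Set.ncard_insert_of_notMem h3 (Set.toFinite _), Set.ncard_eq_toFinset_card',
        Set.toFinset_range, Finset.card_image_of_injective _ hinj, Finset.card_univ,
        Fintype.card_fin] at h4
      have h5 := hBag B' hB'
      omega
    have F : FState G K' (Function.update f i w) := by
      refine ⟨conn_comp _ _, fun l => ?_, fun b hb => ?_⟩
      · by_cases hl : l = i
        · subst hl; simpa using hwK'
        · rw [Function.update_of_ne hl]
          exact fun h => S.out l (hKK h)
      · rcases nb_comp hr0 hb with rfl | h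
        · exact ⟨i, by simp⟩
        · obtain ⟨l, rfl⟩ := S.bd b h
          have hl : l ≠ i := by
            rintro rfl
            exact hi hb
          exact ⟨l, by rw [Function.update_of_ne hl]⟩
    refine (ih _ hKK (fun h => hwK' (by rw [h]; exact hwK)) _ F ⟨B, hB, hsub r0 hr0⟩).mono ?_
    intro l r hr c hc
    by_cases hl : l = i
    · subst hl
      rw [Function.update_self]
      exact (L l).near_w hwK (S.out l) hr0 hi hr (hex l r (hKK hr)) hc
    · rw [Function.update_of_ne hl]
      exact near_mono hKK ((L l).near_of_walks hc)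

theorem f_states [Finite V] (hnb : ∀ v : V, ∃ u, G.Adj v u) (hG : G.Connected) {k : ℕ}
    {Bag : Set V → Prop} (hBag : ∀ S, Bag S → S.ncard ≤ k + 1) (hH : BagHelly G Bag) (n : ℕ) :
    ∀ K : Set V, K.ncard ≤ n → ∀ f : Fin k → V, FState G K f → (∃ S, Bag S ∧ Nb G K ⊆ S) →
      Sw G K fun i => near G K (f i) := by
  induction n with
  | zero =>
    intro K hK f _ _ c r hr
    have hKe : K = ∅ := by
      rw [← Set.ncard_eq_zero (Set.toFinite K)]; omega
    rw [hKe] at hr
    exact absurd hr (Set.notMem_empty r)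
  | succ n ih =>
    intro K hK f S hS
    refine f_step hnb hG hBag hH S hS fun K' h1 h2 => ih K' ?_
    have := Set.ncard_lt_ncard (lt_of_le_of_ne h1 h2) (Set.toFinite K)
    omega

/-- `k` fully active cops win on every connected graph of treewidth at most `k` with at least two
vertices. -/
theorem coreTW [Fintype V] (hG : G.Connected) (hcard : 2 ≤ Fintype.card V) {k : ℕ}
    (hk : HasTreeDecomp G k) : CopsWin G k := by
  classical
  have hnt : Nontrivial V := Fintype.one_lt_card_iff_nontrivial.1 (by omega)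
  have hnb : ∀ v : V, ∃ u, G.Adj v u := fun v => hG.preconnected.exists_adj_of_nontrivial v
  obtain ⟨u⟩ : Nonempty V := hG.nonempty
  obtain ⟨v, huv⟩ := hnb u
  obtain ⟨m, T, bag, hT, hcardb, hedge, hconn⟩ := hk
  have hH := bagHelly_of_tree hT hedge hconn
  have hBag : ∀ S : Set V, (∃ t, S = (bag t : Set V)) → S.ncard ≤ k + 1 := by
    rintro _ ⟨t, rfl⟩
    rw [Set.ncard_coe_finset]
    exact hcardb t
  have hk1 : 1 ≤ k := by
    obtain ⟨t, h1, h2⟩ := hedge u v huv
    have h3 : ({u, v} : Finset V) ⊆ bag t := by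
      intro x hx
      rw [Finset.mem_insert, Finset.mem_singleton] at hx
      rcases hx with rfl | rfl
      · exact h1
      · exact h2
    have h4 := Finset.card_le_card h3
    rw [Finset.card_pair huv.ne] at h4
    have := hcardb t
    omega
  refine copsWin_of_rwin hnb (fun _ => u) fun r => ?_
  by_cases hru : r = u
  · exact Or.inl ⟨⟨0, hk1⟩, hru.symm⟩
  refine Or.inr ⟨fun _ => v, fun _ => huv, ?_⟩
  have hr0 : r ∈ (Set.univ \ {u} : Set V) := ⟨Set.mem_univ _, hru⟩
  have hK := comp_subset (G := G) hr0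
  have huK : u ∉ comp G (Set.univ \ {u}) r := fun h => (hK h).2 rfl
  have hNb : ∀ b ∈ Nb G (comp G (Set.univ \ {u}) r), b = u := by
    rintro b ⟨h1, x, h2, h3⟩
    by_contra h
    exact h1 (mem_comp_of_adj h2 h3 ⟨Set.mem_univ _, h⟩)
  have F : FState G (comp G (Set.univ \ {u}) r) (fun _ : Fin k => u) :=
    ⟨conn_comp _ _, fun _ => huK, fun b hb => ⟨⟨0, hk1⟩, (hNb b hb).symm⟩⟩
  obtain ⟨⟨t, ht⟩⟩ := (hconn u).nonempty
  have hsw := f_states hnb hG hBag hH _ _ le_rfl _ F
    ⟨_, ⟨t, rfl⟩, fun b hb => by rw [hNb b hb]; exact ht⟩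
  exact hsw _ r (self_mem_comp _ _ _) fun i => near_edge huK huv (self_mem_comp _ _ _) (Or.inr rfl)

end Pool.Agent.Lib.MP9d0a1e
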