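import Pool.Agent.Lib.MP_9d0a1e_co.Bip.Sub
import Pool.Agent.Lib.MP_9d0a1e_co.Bip.TW
import Pool.Agent.Lib.MP_9d0a1e_co.Mono

/-!
# The 4-cycle: planar, of treewidth 2, and one fully active cop does not win
-/

namespace Pool.Agent.Lib.MP9d0a1e

namespace Sq

/-- The cycle `0, 1, 2, 3`. -/
def G : SimpleGraph (Fin 4) where
  Adj u v := u + 1 = v ∨ v + 1 = u
  symm := ⟨fun _ _ h => h.symm⟩
  loopless := ⟨by
    intro u h
    have : ∀ u : Fin 4, u + 1 ≠ u := by decide
    rcases h with h | h <;> exact this u h⟩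

instance : DecidableRel G.Adj := fun u v => inferInstanceAs (Decidable (u + 1 = v ∨ v + 1 = u))

theorem connected : G.Connected := by
  have h1 : ∀ v : Fin 4, G.Reachable v 0 := by
    have h01 : G.Adj 1 0 := by decide
    have h21 : G.Adj 2 1 := by decide
    have h30 : G.Adj 3 0 := by decide
    intro v
    fin_cases v
    · exact SimpleGraph.Reachable.refl _
    · exact h01.reachable
    · exact h21.reachable.trans h01.reachable
    · exact h30.reachable
  have : Nonempty (Fin 4) := ⟨0⟩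
  exact ⟨fun u v => (h1 u).trans (h1 v).symm⟩

/-- Darts as pairs. -/
def eqv : G.Dart ≃ Fin 4 × Bool where
  toFun d := (d.fst, decide (d.fst + 1 = d.snd))
  invFun p := ⟨(p.1, if p.2 then p.1 + 1 else p.1 - 1), by
    rcases p with ⟨u, b⟩
    cases b
    · exact Or.inr (by simp)
    · exact Or.inl (by simp)⟩
  left_inv := by
    rintro ⟨⟨u, v⟩, h⟩
    apply SimpleGraph.Dart.ext
    apply Prod.ext
    · rfl
    · show (if decide (u + 1 = v) then u + 1 else u - 1) = v
      revert h
      revert u v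
      show ∀ u v : Fin 4, (u + 1 = v ∨ v + 1 = u) → _
      decide
  right_inv := by
    rintro ⟨u, b⟩
    apply Prod.ext
    · rfl
    · show decide (u + 1 = if b then u + 1 else u - 1) = b
      revert u b
      decide

/-- Rotation. -/
def rot : Equiv.Perm (Fin 4 × Bool) where
  toFun p := (p.1, !p.2)
  invFun p := (p.1, !p.2)
  left_inv p := by simp
  right_inv p := by simp

/-- Face permutation. -/
def ph : Equiv.Perm (Fin 4 × Bool) where
  toFun p := (if p.2 then p.1 + 1 else p.1 - 1, p.2)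
  invFun p := (if p.2 then p.1 - 1 else p.1 + 1, p.2)
  left_inv := by
    rintro ⟨u, b⟩
    cases b <;> simp
  right_inv := by
    rintro ⟨u, b⟩
    cases b <;> simp

theorem eqv_symm (d : G.Dart) : rot (eqv d.symm) = ph (eqv d) := by
  rcases d with ⟨⟨u, v⟩, h⟩
  show (v, !decide (v + 1 = u)) = (if decide (u + 1 = v) then u + 1 else u - 1, decide (u + 1 = v))
  revert h
  revert u v
  show ∀ u v : Fin 4, (u + 1 = v ∨ v + 1 = u) → _
  decide

/-- Conjugation of permutations. -/
def cj (π : Equiv.Perm (Fin 4 × Bool)) : Equiv.Perm G.Dart := eqv.trans (π.trans eqv.symm)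

theorem cj_apply (π : Equiv.Perm (Fin 4 × Bool)) (d : G.Dart) : eqv (cj π d) = π (eqv d) := by
  show eqv (eqv.symm (π (eqv d))) = _
  rw [Equiv.apply_symm_apply]

theorem cj_pow (π : Equiv.Perm (Fin 4 × Bool)) (n : ℕ) (d : G.Dart) :
    eqv ((cj π ^ n) d) = (π ^ n) (eqv d) := by
  induction n generalizing d with
  | zero => rfl
  | succ n ih => rw [pow_succ, pow_succ, Equiv.Perm.mul_apply, Equiv.Perm.mul_apply, ih, cj_apply]

theorem card_edges : Nat.card G.edgeSet = 4 := by
  classical
  have h1 := G.dart_card_eq_twice_card_edges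
  rw [← Nat.card_eq_fintype_card, Nat.card_congr eqv] at h1
  rw [Nat.card_eq_fintype_card, ← SimpleGraph.edgeFinset_card]
  simp at h1
  omega

theorem ph_trans : ∀ (b : Bool) (u u' : Fin 4), ∃ n : Fin 4, (ph ^ n.val) (u, b) = (u', b) := by
  decide

theorem ph_snd (n : ℕ) (p : Fin 4 × Bool) : ((ph ^ n) p).2 = p.2 := by
  induction n generalizing p with
  | zero => rfl
  | succ n ih => rw [pow_succ, Equiv.Perm.mul_apply, ih]; rfl

theorem planar : Planar G := by
  refine ⟨2, ?_, cj rot, cj ph, fun d => if (eqv d).2 then 1 else 0, ?_, ?_, ?_, ?_, ?_⟩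
  · rw [card_edges]; simp
  · intro d
    have h := cj_apply rot d
    have h2 : (eqv (cj rot d)).1 = (rot (eqv d)).1 := congrArg Prod.fst h
    exact h2
  · intro d d' h
    by_cases hb : (eqv d).2 = (eqv d').2
    · refine ⟨0, eqv.injective ?_⟩
      exact Prod.ext h hb
    · refine ⟨1, eqv.injective ?_⟩
      rw [pow_one, cj_apply]
      refine Prod.ext h ?_
      show (!(eqv d).2) = (eqv d').2
      revert hb
      cases (eqv d).2 <;> cases (eqv d').2 <;> simp
  · intro d
    apply eqv.injective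
    rw [cj_apply, cj_apply, eqv_symm]
  · intro d d'
    constructor
    · intro h
      have hb : (eqv d).2 = (eqv d').2 := by
        have h' : (if (eqv d).2 then (1 : Fin 2) else 0) = if (eqv d').2 then 1 else 0 := h
        rcases h1 : (eqv d).2 with _ | _ <;> rcases h2 : (eqv d').2 with _ | _ <;>
          simp [h1, h2] at h' ⊢
      obtain ⟨n, hn⟩ := ph_trans (eqv d).2 (eqv d).1 (eqv d').1
      refine ⟨n.val, eqv.injective ?_⟩
      rw [cj_pow]
      have h1 : eqv d = ((eqv d).1, (eqv d).2) := rfl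
      rw [h1, hn, hb]
    · rintro ⟨n, rfl⟩
      simp only [cj_pow, ph_snd]
  · intro k
    fin_cases k
    · exact ⟨eqv.symm (0, false), by simp⟩
    · exact ⟨eqv.symm (0, true), by simp⟩

/-- Two bags suffice. -/
theorem tw : HasTreeDecomp G 2 := by
  refine ⟨2, ⊤, ![{0, 1, 2}, {0, 2, 3}], ?_, ?_, ?_, ?_⟩
  · rw [SimpleGraph.isTree_iff_connected_and_card]
    refine ⟨SimpleGraph.connected_top, ?_⟩
    rw [Nat.card_eq_fintype_card, ← SimpleGraph.edgeFinset_card,
      SimpleGraph.card_edgeFinset_top_eq_card_choose_two]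
    simp
  · intro t
    fin_cases t <;> decide
  · decide
  · intro v
    have hne : ∀ v : Fin 4, ∃ t : Fin 2,
        v ∈ (![{0, 1, 2}, {0, 2, 3}] : Fin 2 → Finset (Fin 4)) t := by decide
    obtain ⟨t, ht⟩ := hne v
    have : Nonempty {t : Fin 2 | v ∈ (![{0, 1, 2}, {0, 2, 3}] : Fin 2 → Finset (Fin 4)) t} :=
      ⟨⟨t, ht⟩⟩
    refine ⟨fun x y => ?_⟩
    by_cases hxy : x = y
    · rw [hxy]
    · refine SimpleGraph.Adj.reachable ?_
      show x.1 ≠ y.1
      exact fun h => hxy (Subtype.ext h)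

/-- The opposite vertex. -/
def opp (u : Fin 4) : Fin 4 := u + 2

theorem opp_ne : ∀ u, u ≠ opp u := by decide

theorem adj_opp : ∀ u v : Fin 4, G.Adj u v → G.Adj v (opp u) := by decide

theorem not_adj_opp : ∀ u : Fin 4, ¬ G.Adj u (opp u) := by decide

theorem not_one : ¬ CopsWin G 1 := by
  have : Nonempty (Fin 4) := ⟨0⟩
  apply not_copsWin_of_inv fun S l => ∀ r ∈ l.head?, G.Adj (S.pos l 0) r
  · intro S r hr
    simp at hr
  intro S l hl
  refine ⟨opp (S.pos l 0), ?_, ?_, ?_, ?_⟩
  · intro r hr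
    exact adj_opp _ _ (hl r hr)
  · intro i
    rw [Fin.eq_zero i]
    exact opp_ne _
  · intro i hi
    rw [Fin.eq_zero i] at hi
    have h1 := S.adj l (opp (S.pos l 0)) 0
    rw [hi] at h1
    exact not_adj_opp _ h1
  · intro r hr
    have h0 : opp (S.pos l 0) = r := by simpa using hr
    rw [← h0]
    exact (adj_opp _ _ (S.adj l (opp (S.pos l 0)) 0))

theorem two_le {k : ℕ} (hk : CopsWin G k) : 2 ≤ k := by
  have : Nonempty (Fin 4) := ⟨0⟩
  by_contra h
  rcases Nat.eq_zero_or_pos k with rfl | h0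
  · exact not_copsWin_zero (fun v => connected.preconnected.exists_adj_of_nontrivial v) hk
  · exact not_one (hk.mono h0 (by omega))

end Sq

end Pool.Agent.Lib.MP9d0a1e
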