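import Mathlib
import Pool.Agent.Lib.MP_9d0a1e_co.Defs

/-!
# The subdivided dodecahedron: two active cops do not win
-/

namespace Pool.Agent.Lib.MP9d0a1e

universe u

/-- The robber wins if he can maintain an invariant of the history. -/
theorem not_copsWin_of_inv {V : Type u} [Nonempty V] {G : SimpleGraph V} {k : ℕ}
    (Inv : CopStrategy G k → List V → Prop) (h0 : ∀ S, Inv S [])
    (hstep : ∀ S l, Inv S l → ∃ x, (∀ r ∈ l.head?, G.Adj r x) ∧ (∀ i, S.pos l i ≠ x) ∧
      (∀ i, S.pos (x :: l) i ≠ x) ∧ Inv S (x :: l)) : ¬ CopsWin G k := by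
  rintro ⟨S, hS⟩
  classical
  let nxt : List V → V := fun l => Classical.epsilon fun x => (∀ r ∈ l.head?, G.Adj r x) ∧
    (∀ i, S.pos l i ≠ x) ∧ (∀ i, S.pos (x :: l) i ≠ x) ∧ Inv S (x :: l)
  let h : ℕ → List V := fun n => Nat.rec [] (fun _ l => nxt l :: l) n
  have h1 : ∀ n, h (n + 1) = nxt (h n) :: h n := fun n => rfl
  let ρ : ℕ → V := fun n => nxt (h n)
  have hhist : ∀ n, hist ρ n = h n := by
    intro n
    induction n with
    | zero => rfl
    | succ n ih => rw [h1, hist, ih]
  have hinv : ∀ n, Inv S (h n) := by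
    intro n
    induction n with
    | zero => exact h0 S
    | succ n ih =>
      rw [h1]
      exact (Classical.epsilon_spec (hstep S (h n) ih)).2.2.2
  have hgood : ∀ n, (∀ r ∈ (h n).head?, G.Adj r (ρ n)) ∧
    (∀ i, S.pos (h n) i ≠ ρ n) ∧ (∀ i, S.pos (ρ n :: h n) i ≠ ρ n) := fun n =>
    ⟨(Classical.epsilon_spec (hstep S (h n) (hinv n))).1,
      (Classical.epsilon_spec (hstep S (h n) (hinv n))).2.1,
      (Classical.epsilon_spec (hstep S (h n) (hinv n))).2.2.1⟩
  obtain ⟨n, i, hcap⟩ := hS ρ fun n => (hgood (n + 1)).1 (ρ n) (by rw [h1]; rfl)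
  rw [hhist, hhist] at hcap
  rcases hcap with hc | hc
  · exact (hgood n).2.1 i hc
  · exact (hgood n).2.2 i hc

namespace Sub

/-- Table lookup. -/
def tb (T i : ℕ) : ℕ := (T >>> (8 * i)) % 256

/-- Tail of a dart. -/
def tl (d : Fin 120) : Fin 50 :=
  ⟨tb 1796344999438241642380371399696854819413199757540936497079029763655251071246805414875596999963884810152488250961728725644633958989682348654780795562972229800165059091280625963021861795898196175398708373834979168579407110656762171297574722953184969147731573039443995053176146961028475781120 d.val % 50, Nat.mod_lt _ (by norm_num)⟩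

/-- Reversal. -/
def rv (d : Fin 120) : Fin 120 := ⟨(d.val + 60) % 120, Nat.mod_lt _ (by norm_num)⟩

/-- Rotation. -/
def rt (d : Fin 120) : Fin 120 :=
  ⟨tb 4204310552165617504246161924575484581465063307147497858188946481730747836587412326589433417377799572660245292871407993990161367279017885956896668812292087622606406671009546285880471219712339298456198257059845917030231748699233831877625279450032663533928829042749818197165774760036964237825 d.val % 120, Nat.mod_lt _ (by norm_num)⟩

/-- Inverse rotation. -/
def ri (d : Fin 120) : Fin 120 :=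
  ⟨tb 4204310552165617504246161924575484581465063307147497858188946481730747836587412326589433417377799572660245292871407993990161367279017885956896668824391336483892227639840687799373660585843881048787808663472154592793151715854405858243318533765696224182567247050116693675396495326336004456450 d.val % 120, Nat.mod_lt _ (by norm_num)⟩

/-- Face of a dart. -/
def fc (d : Fin 120) : Fin 12 :=
  ⟨tb 420088110352768979588364211335922399463499291800793418323794681211897752831864302336790683410892725925978554818569327314013869594511184505323331172860294522480567931051185859150164142140350225311749994997817661935440812305451530146154201986436660612978408144366449127044844128365751435520 d.val % 12, Nat.mod_lt _ (by norm_num)⟩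

/-- Position of a dart in its face. -/
def pw (d : Fin 120) : ℕ :=
  tb 191084592979112625655413406562713922335617759867293693218288922303718599939688467581825083157886194559111947039460544641276086651467384140481832293509569180584466654289470385738903963735848171160971628572468765715508305381391460424413499032236599048793866203959383987427777644608754810880 d.val

/-- First dart of a face. -/
def rep (f : Fin 12) : Fin 120 :=
  ⟨tb 13042043283233835463110426880 f.val % 120, Nat.mod_lt _ (by norm_num)⟩

/-- Distance to the vertex `0`. -/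
def ds (v : Fin 50) : ℕ := tb 91138229784133348617927073341301650726873198935360566664481719345841273236106757678674649518917681538454710290504352256 v.val

/-- The dart towards the vertex `0`. -/
def pd (v : Fin 50) : Fin 120 :=
  ⟨tb 1174551397834326780674892427652491089584536943550239206000699260685400573854544792088877461218047950454605033854002922240 v.val % 120, Nat.mod_lt _ (by norm_num)⟩

/-- Neighbours of a vertex, with repetition. -/
def nbd (v : Fin 50) (k : Fin 3) : Fin 50 :=
  ⟨tb 1215684808426899070716437362202854428074556045226749781617191545105557658092867164408439196184987420221067661840541707913842069625813908251232898573210453461884407909790037022429810123204325460048396497195881705466281091895164228873470481372314366421741903668486778652478602531799211681442586231569086982638226227738881595068152695782146553224466153624565060884 (3 * v.val + k.val) % 50, Nat.mod_lt _ (by norm_num)⟩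

/-- Head of a dart. -/
def hd (d : Fin 120) : Fin 50 := tl (rv d)

/-- Iteration. -/
def it (f : Fin 120 → Fin 120) : ℕ → Fin 120 → Fin 120
  | 0, d => d
  | n + 1, d => it f n (f d)

/-- Face permutation. -/
def ph (d : Fin 120) : Fin 120 := rt (rv d)

theorem rv_rv : ∀ d, rv (rv d) = d := by decide +kernel

theorem rt_ri : ∀ d, rt (ri d) = d := by decide +kernel

theorem ri_rt : ∀ d, ri (rt d) = d := by decide +kernel

theorem tl_rt : ∀ d, tl (rt d) = tl d := by decide +kernel

theorem simple : ∀ d d', tl d = tl d' → hd d = hd d' → d = d' := by decide +kernel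

theorem tl_ne_hd : ∀ d, tl d ≠ hd d := by decide +kernel

theorem rt_trans : ∀ d d', tl d = tl d' → ∃ n : Fin 3, it rt n.val d = d' := by decide +kernel

theorem fc_ph : ∀ d, fc (ph d) = fc d := by decide +kernel

theorem ph_rep : ∀ d, it ph (pw d) (rep (fc d)) = d := by decide +kernel

theorem ph_rep' : ∀ d, it ph (10 - pw d) d = rep (fc d) := by decide +kernel

theorem fc_rep : ∀ f, fc (rep f) = f := by decide +kernel

theorem tl_pd : ∀ v, tl (pd v) = v := by decide +kernel

theorem ds_pd : ∀ v, v ≠ 0 → ds (hd (pd v)) < ds v := by decide +kernel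

theorem nbd_hd : ∀ d, ∃ k, nbd (tl d) k = hd d := by decide +kernel

/-- The 2-colouring: vertices of the dodecahedron, and midpoints of edges. -/
theorem bip : ∀ d, (decide ((tl d).val < 20)) ≠ decide ((hd d).val < 20) := by decide +kernel

/-- The subdivided dodecahedron. -/
def G : SimpleGraph (Fin 50) where
  Adj u v := ∃ d, tl d = u ∧ hd d = v
  symm := ⟨by
    rintro u v ⟨d, rfl, rfl⟩
    exact ⟨rv d, rfl, by rw [hd, rv_rv]⟩⟩
  loopless := ⟨by
    rintro u ⟨d, h, h'⟩
    exact tl_ne_hd d (h.trans h'.symm)⟩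

theorem bipartite (u v : Fin 50) (h : G.Adj u v) : decide (u.val < 20) ≠ decide (v.val < 20) := by
  obtain ⟨d, rfl, rfl⟩ := h
  exact bip d

theorem connected : G.Connected := by
  have h : ∀ n : ℕ, ∀ v : Fin 50, ds v ≤ n → G.Reachable v 0 := by
    intro n
    induction n with
    | zero =>
      intro v hv
      by_contra h
      have h0 : v ≠ 0 := by
        rintro rfl
        exact h (SimpleGraph.Reachable.refl _)
      have := ds_pd v h0
      omega
    | succ n ih =>
      intro v hv
      by_cases h0 : v = 0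
      · rw [h0]
      have h1 : G.Adj v (hd (pd v)) := ⟨pd v, tl_pd v, rfl⟩
      have h2 := ds_pd v h0
      exact h1.reachable.trans (ih _ (by omega))
  have : Nonempty (Fin 50) := ⟨0⟩
  exact ⟨fun u v => (h _ u le_rfl).trans (h _ v le_rfl).symm⟩

/-- Darts as numbers. -/
noncomputable def eqv : Fin 120 ≃ G.Dart :=
  Equiv.ofBijective (fun d => ⟨(tl d, hd d), ⟨d, rfl, rfl⟩⟩) (by
    constructor
    · intro d d' h
      have h1 : (tl d, hd d) = (tl d', hd d') := congrArg SimpleGraph.Dart.toProd h
      exact simple d d' (congrArg Prod.fst h1) (congrArg Prod.snd h1)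
    · rintro ⟨⟨u, v⟩, ⟨d, h1, h2⟩⟩
      refine ⟨d, ?_⟩
      apply SimpleGraph.Dart.ext
      apply Prod.ext
      · exact h1
      · exact h2)

theorem eqv_fst (d : Fin 120) : (eqv d).fst = tl d := rfl

theorem eqv_snd (d : Fin 120) : (eqv d).snd = hd d := rfl

theorem eqv_symm' (d : Fin 120) : (eqv d).symm = eqv (rv d) := by
  apply SimpleGraph.Dart.ext
  apply Prod.ext
  · rfl
  · show tl d = hd (rv d)
    rw [hd, rv_rv]

/-- Rotation as a permutation. -/
def rot : Equiv.Perm (Fin 120) := ⟨rt, ri, ri_rt, rt_ri⟩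

/-- Face permutation. -/
def fp : Equiv.Perm (Fin 120) := (⟨rv, rv, rv_rv, rv_rv⟩ : Equiv.Perm (Fin 120)).trans rot

theorem pow_it (π : Equiv.Perm (Fin 120)) (n : ℕ) (d : Fin 120) : (π ^ n) d = it π n d := by
  induction n generalizing d with
  | zero => rfl
  | succ n ih => rw [pow_succ, Equiv.Perm.mul_apply, ih, it]

/-- Conjugation of permutations. -/
noncomputable def cj (π : Equiv.Perm (Fin 120)) : Equiv.Perm G.Dart := eqv.symm.trans (π.trans eqv)

theorem cj_apply (π : Equiv.Perm (Fin 120)) (d : Fin 120) : cj π (eqv d) = eqv (π d) := by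
  simp [cj]

theorem cj_pow (π : Equiv.Perm (Fin 120)) (n : ℕ) (d : Fin 120) :
    (cj π ^ n) (eqv d) = eqv ((π ^ n) d) := by
  induction n generalizing d with
  | zero => rfl
  | succ n ih => rw [pow_succ, pow_succ, Equiv.Perm.mul_apply, Equiv.Perm.mul_apply, cj_apply, ih]

theorem card_darts : Nat.card G.Dart = 120 := by
  rw [← Nat.card_congr eqv]; simp

theorem card_edges : Nat.card G.edgeSet = 60 := by
  classical
  have h1 := G.dart_card_eq_twice_card_edges
  rw [← Nat.card_eq_fintype_card, card_darts] at h1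
  rw [Nat.card_eq_fintype_card, ← SimpleGraph.edgeFinset_card]
  omega

theorem fc_it (n : ℕ) (d : Fin 120) : fc ((fp ^ n) d) = fc d := by
  induction n generalizing d with
  | zero => rfl
  | succ n ih =>
    rw [pow_succ, Equiv.Perm.mul_apply, ih]
    exact fc_ph d

theorem planar : Planar G := by
  refine ⟨12, ?_, cj rot, cj fp, fun d => fc (eqv.symm d), ?_, ?_, ?_, ?_, ?_⟩
  · rw [card_edges]; simp
  · intro d
    obtain ⟨d, rfl⟩ := eqv.surjective d
    rw [cj_apply, eqv_fst, eqv_fst]
    exact tl_rt d
  · intro d d' h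
    obtain ⟨d, rfl⟩ := eqv.surjective d
    obtain ⟨d', rfl⟩ := eqv.surjective d'
    obtain ⟨n, hn⟩ := rt_trans d d' h
    refine ⟨n.val, ?_⟩
    rw [cj_pow, pow_it]
    exact congrArg eqv hn
  · intro d
    obtain ⟨d, rfl⟩ := eqv.surjective d
    rw [eqv_symm', cj_apply, cj_apply]
    rfl
  · intro d d'
    obtain ⟨d, rfl⟩ := eqv.surjective d
    obtain ⟨d', rfl⟩ := eqv.surjective d'
    simp only [Equiv.symm_apply_apply]
    constructor
    · intro h
      refine ⟨pw d' + (10 - pw d), ?_⟩
      rw [cj_pow, pow_add, Equiv.Perm.mul_apply, pow_it, pow_it]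
      have h1 : it fp (10 - pw d) d = rep (fc d) := ph_rep' d
      have h2 : it fp (pw d') (rep (fc d')) = d' := ph_rep d'
      rw [h1, h, h2]
    · rintro ⟨n, hn⟩
      rw [cj_pow] at hn
      rw [← eqv.injective hn, fc_it]
  · intro k
    exact ⟨eqv (rep k), by simp only [Equiv.symm_apply_apply, fc_rep]⟩

/-! ### The game -/

/-- The midpoint of an edge at a vertex of the dodecahedron. -/
def md (w : Fin 20) (i : Fin 3) : Fin 50 := hd ⟨3 * w.val + i.val, by omega⟩

/-- The other end of this edge. -/
def oe (w : Fin 20) (i : Fin 3) : Fin 50 := hd (ph ⟨3 * w.val + i.val, by omega⟩)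

/-- The vertex `w` as a vertex of the subdivided graph. -/
def em (w : Fin 20) : Fin 50 := ⟨w.val, by omega⟩

theorem adj_md (w : Fin 20) (i : Fin 3) : G.Adj (em w) (md w i) := by
  have h : ∀ w : Fin 20, ∀ i : Fin 3, tl ⟨3 * w.val + i.val, by omega⟩ = em w := by decide +kernel
  exact ⟨_, h w i, rfl⟩

theorem adj_oe (w : Fin 20) (i : Fin 3) : G.Adj (md w i) (oe w i) := by
  refine ⟨ph ⟨3 * w.val + i.val, by omega⟩, ?_, rfl⟩
  rw [ph, tl_rt]
  rfl

theorem oe_em : ∀ w : Fin 20, ∀ i : Fin 3, (oe w i).val < 20 := by decide +kernel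

/-- A cop at `c` does not block the direction `i` of a robber at `w`. -/
def Ok (c : Fin 50) (w : Fin 20) (i : Fin 3) : Prop :=
  c ≠ md w i ∧ ∀ k, nbd c k ≠ md w i ∧ nbd c k ≠ oe w i ∧ ∀ k', nbd (nbd c k) k' ≠ oe w i

instance (c : Fin 50) (w : Fin 20) (i : Fin 3) : Decidable (Ok c w i) := by
  unfold Ok; infer_instance

theorem one_block : ∀ w : Fin 20, ∀ c : Fin 50, c ≠ em w → ∃ j, ∀ i, i ≠ j → Ok c w i := by
  decide +kernel

theorem third : ∀ j j' : Fin 3, ∃ i : Fin 3, i ≠ j ∧ i ≠ j' := by decide

theorem start : ∀ c c' : Fin 50, ∃ w : Fin 20, (c ≠ em w ∧ ∀ k, nbd c k ≠ em w) ∧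
    (c' ≠ em w ∧ ∀ k, nbd c' k ≠ em w) := by decide +kernel

theorem adj_nbd {u v : Fin 50} (h : G.Adj u v) : ∃ k, nbd u k = v := by
  obtain ⟨d, rfl, rfl⟩ := h
  exact nbd_hd d

theorem not_cops_win : ¬ CopsWin G 2 := by
  have : Nonempty (Fin 50) := ⟨0⟩
  apply not_copsWin_of_inv fun S l => l = [] ∨
    (∃ (r : Fin 20) (l' : List (Fin 50)), l = em r :: l' ∧ ∀ i, S.pos l i ≠ em r) ∨
    (∃ (m : Fin 50) (l' : List (Fin 50)) (w : Fin 20), l = m :: l' ∧ G.Adj m (em w) ∧
      ∀ i, S.pos l i ≠ em w ∧ ∀ k, nbd (S.pos l i) k ≠ em w)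
  · intro S
    exact Or.inl rfl
  intro S l hl
  rcases hl with rfl | ⟨r, l', rfl, hl⟩ | ⟨m, l', w, rfl, hmw, hl⟩
  · obtain ⟨w, h1, h2⟩ := start (S.pos [] 0) (S.pos [] 1)
    have h3 : ∀ i, S.pos [] i ≠ em w ∧ ∀ k, nbd (S.pos [] i) k ≠ em w := by
      intro i
      fin_cases i
      · exact h1
      · exact h2
    have h4 : ∀ i, S.pos [em w] i ≠ em w := by
      intro i hi
      obtain ⟨k, hk⟩ := adj_nbd (S.adj [] (em w) i)
      exact (h3 i).2 k (hk.trans hi)
    exact ⟨em w, by simp, fun i => (h3 i).1, h4, Or.inr (Or.inl ⟨w, [], rfl, h4⟩)⟩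
  · obtain ⟨j, hj⟩ := one_block r _ (hl 0)
    obtain ⟨j', hj'⟩ := one_block r _ (hl 1)
    obtain ⟨i, hi, hi'⟩ := third j j'
    have hok : ∀ c, Ok (S.pos (em r :: l') c) r i := by
      intro c
      fin_cases c
      · exact hj i hi
      · exact hj' i hi'
    refine ⟨md r i, ?_, fun c => (hok c).1, ?_, Or.inr (Or.inr
      ⟨md r i, _, ⟨(oe r i).val, oe_em r i⟩, rfl, adj_oe r i, ?_⟩)⟩
    · intro r' hr'
      have : em r = r' := by simpa using hr'
      subst this
      exact adj_md r i
    · intro c hc
      obtain ⟨k, hk⟩ := adj_nbd (S.adj (em r :: l') (md r i) c)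
      exact ((hok c).2 k).1 (hk.trans hc)
    · intro c
      obtain ⟨k, hk⟩ := adj_nbd (S.adj (em r :: l') (md r i) c)
      rw [← hk]
      exact ⟨((hok c).2 k).2.1, ((hok c).2 k).2.2⟩
  · have h4 : ∀ i, S.pos (em w :: m :: l') i ≠ em w := by
      intro i hi
      obtain ⟨k, hk⟩ := adj_nbd (S.adj (m :: l') (em w) i)
      exact (hl i).2 k (hk.trans hi)
    refine ⟨em w, ?_, fun i => (hl i).1, h4, Or.inr (Or.inl ⟨w, _, rfl, h4⟩)⟩
    intro r' hr'
    have : m = r' := by simpa using hr'
    subst this
    exact hmw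

end Sub

end Pool.Agent.Lib.MP9d0a1e
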